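import Pool.Agent.K7.H1.LG.Forms

set_option autoImplicit false

namespace Pool.Agent.K7.H1.LG

theorem W_mem {O : Subalgebra ℂ K} {a b : K} (ha : a ∈ O) (hb : b ∈ O) :
    W a b ∈ canonicalModule O := by
  refine Submodule.subset_span ⟨![a, b], ?_, rfl⟩
  intro i; fin_cases i
  · exact ha
  · exact hb

theorem canonical_mono {O O' : Subalgebra ℂ K} (h : O ≤ O') {ω : Form 2}
    (hω : ω ∈ canonicalModule O) : ω ∈ canonicalModule O' := by
  unfold canonicalModule at hω
  induction hω using Submodule.span_induction with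
  | mem ω hω =>
    obtain ⟨b, hb, rfl⟩ := hω
    exact Submodule.subset_span ⟨b, fun i => h (hb i), rfl⟩
  | zero => exact Submodule.zero_mem _
  | add a b _ _ ha hb => exact Submodule.add_mem _ ha hb
  | smul c a _ ha =>
    exact Submodule.smul_mem _ (⟨(c : K), h c.2⟩ : O') ha

/-- The `O`-submodule of the differentials generated by `dp` and `dq`. -/
noncomputable def N (O : Subalgebra ℂ K) (p q : K) : Submodule O (VectorField 2 → K) :=
  Submodule.span O {d p, d q}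

theorem mem_N {O : Subalgebra ℂ K} {p q : K} {α : VectorField 2 → K} :
    α ∈ N O p q ↔ ∃ a ∈ O, ∃ b ∈ O, α = a • d p + b • d q := by
  unfold N
  rw [Submodule.mem_span_pair]
  constructor
  · rintro ⟨a, b, h⟩
    exact ⟨a, a.2, b, b.2, h.symm⟩
  · rintro ⟨a, ha, b, hb, h⟩
    exact ⟨⟨a, ha⟩, ⟨b, hb⟩, h.symm⟩

theorem canonical_le {O : Subalgebra ℂ K} {p q : K} (h : ∀ a ∈ O, d a ∈ N O p q)
    {ω : Form 2} (hω : ω ∈ canonicalModule O) : ∃ c ∈ O, ω = c • W p q := by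
  unfold canonicalModule at hω
  induction hω using Submodule.span_induction with
  | mem ω hω =>
    obtain ⟨b, hb, rfl⟩ := hω
    obtain ⟨α, hα, β, hβ, h0⟩ := mem_N.1 (h _ (hb 0))
    obtain ⟨γ, hγ, δ, hδ, h1⟩ := mem_N.1 (h _ (hb 1))
    refine ⟨α * δ - β * γ, O.sub_mem (O.mul_mem hα hδ) (O.mul_mem hβ hγ), ?_⟩
    rw [wedge_eq, h0, h1, W_eq]
    exact wd_comb α β γ δ (d p) (d q)
  | zero => exact ⟨0, O.zero_mem, by simp⟩
  | add a b _ _ ha hb =>
    obtain ⟨c, hc, rfl⟩ := ha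
    obtain ⟨c', hc', rfl⟩ := hb
    exact ⟨c + c', O.add_mem hc hc', by rw [add_smul]⟩
  | smul c a _ ha =>
    obtain ⟨c', hc', rfl⟩ := ha
    refine ⟨c * c', O.mul_mem c.2 hc', ?_⟩
    funext D
    exact (mul_assoc _ _ _).symm

/-- Differentials of the local rings of `Spec ℂ[S]`. -/
theorem d_mem_N {S : Set K} {P : Ideal (Algebra.adjoin ℂ S)} [hP : P.IsPrime] {p q : K}
    (hS : ∀ s ∈ S, d s ∈ N (locAt _ P) p q) :
    ∀ a ∈ locAt (Algebra.adjoin ℂ S) P, d a ∈ N (locAt _ P) p q := by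
  have hA : ∀ a ∈ Algebra.adjoin ℂ S, d a ∈ N (locAt _ P) p q := by
    intro a ha
    induction ha using Algebra.adjoin_induction with
    | mem a ha => exact hS a ha
    | algebraMap r => rw [d_const]; exact Submodule.zero_mem _
    | add a b _ _ ha hb => rw [d_add]; exact Submodule.add_mem _ ha hb
    | mul a b haA hbA ha hb =>
      rw [d_mul]
      exact Submodule.add_mem _
        (Submodule.smul_mem _ (⟨a, le_locAt _ P haA⟩ : locAt _ P) hb)
        (Submodule.smul_mem _ (⟨b, le_locAt _ P hbA⟩ : locAt _ P) ha)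
  intro a ha
  obtain ⟨b, s, hs, hs0, rfl⟩ := exists_frac ha
  have hsi := inv_mem_locAt hs
  rw [d_mul, d_inv hs0, smul_smul]
  have h1 : (b : K) * -((s : K)⁻¹ * (s : K)⁻¹) ∈ locAt (Algebra.adjoin ℂ S) P :=
    Subalgebra.mul_mem _ (le_locAt _ P b.2)
      (Subalgebra.neg_mem _ (Subalgebra.mul_mem _ hsi hsi))
  exact Submodule.add_mem _
    (Submodule.smul_mem _ (⟨_, h1⟩ : locAt _ P) (hA s s.2))
    (Submodule.smul_mem _ (⟨_, hsi⟩ : locAt _ P) (hA b b.2))

theorem canonical_eq {S : Set K} {P : Ideal (Algebra.adjoin ℂ S)} [hP : P.IsPrime] {p q : K}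
    (hp : p ∈ locAt (Algebra.adjoin ℂ S) P) (hq : q ∈ locAt (Algebra.adjoin ℂ S) P)
    (hS : ∀ s ∈ S, d s ∈ N (locAt _ P) p q) :
    canonicalModule (locAt (Algebra.adjoin ℂ S) P) =
      Submodule.span (locAt (Algebra.adjoin ℂ S) P) {W p q} := by
  apply le_antisymm
  · intro ω hω
    obtain ⟨c, hc, rfl⟩ := canonical_le (d_mem_N hS) hω
    exact Submodule.mem_span_singleton.2 ⟨⟨c, hc⟩, rfl⟩
  · rw [Submodule.span_le, Set.singleton_subset_iff]
    exact W_mem hp hq

end Pool.Agent.K7.H1.LG
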