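import Pool.Agent.K7.H1.LG.Chart

set_option autoImplicit false

namespace Pool.Agent.K7.H1.LG

theorem mixed_aux (V : ValuationSubring K) {a b : K} (ha : a ≠ 0) (hb : b ≠ 0)
    (hf : V.valuation (a + a * b + b + a⁻¹ * b⁻¹) ≤ 1) (h1 : 1 < V.valuation a)
    (h2 : V.valuation b < 1) :
    V.valuation (a⁻¹ * a⁻¹ * b⁻¹) = 1 ∧ V.valuation (a + a⁻¹ * b⁻¹) ≤ 1 := by
  set v := V.valuation with hv
  have hva : v a ≠ 0 := (map_ne_zero v).2 ha
  have hpa : 0 < v a := zero_lt_iff.2 hva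
  have hs : v a⁻¹ < 1 := by
    rw [map_inv₀]; exact (inv_lt_one₀ hpa).2 h1
  have h3 : v (1 + a⁻¹ * a⁻¹ * b⁻¹) < 1 := by
    have : 1 + a⁻¹ * a⁻¹ * b⁻¹ = a⁻¹ * (a + a * b + b + a⁻¹ * b⁻¹) - (b + a⁻¹ * b) := by
      field_simp; ring
    rw [this]
    refine v.map_sub_lt ?_ (v.map_add_lt h2 ?_)
    · rw [map_mul]; exact mul_lt_one_of_lt_of_le hs hf
    · rw [map_mul]; exact mul_lt_one_of_lt_of_le hs h2.le
  have h4 : v (a⁻¹ * a⁻¹ * b⁻¹) = 1 := by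
    have h5 := v.map_one_sub_of_lt h3
    have h6 : 1 - (1 + a⁻¹ * a⁻¹ * b⁻¹) = -(a⁻¹ * a⁻¹ * b⁻¹) := by ring
    rwa [h6, v.map_neg] at h5
  refine ⟨h4, ?_⟩
  have h7 : a + a⁻¹ * b⁻¹ = (a + a * b + b + a⁻¹ * b⁻¹) - (b + a * b) := by ring
  rw [h7]
  refine v.map_sub_le hf (v.map_add_le h2.le ?_)
  have h8 : a * b = a⁻¹ * (a⁻¹ * a⁻¹ * b⁻¹)⁻¹ := by field_simp
  rw [h8, map_mul, map_inv₀ v (a⁻¹ * a⁻¹ * b⁻¹), h4, inv_one, mul_one]
  exact hs.le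

/-- Where the center of a valuation ring containing `f` can lie. -/
theorem cases_aux (V : ValuationSubring K) {a b : K} (ha : a ≠ 0) (hb : b ≠ 0)
    (hf : V.valuation (a + a * b + b + a⁻¹ * b⁻¹) ≤ 1) :
    (V.valuation a = 1 ∧ V.valuation b = 1) ∨
    (1 < V.valuation a ∧ V.valuation b = 1) ∨ (V.valuation a = 1 ∧ 1 < V.valuation b) ∨
    (1 < V.valuation a ∧ V.valuation b < 1 ∧ V.valuation (a⁻¹ * a⁻¹ * b⁻¹) = 1 ∧
      V.valuation (a + a⁻¹ * b⁻¹) ≤ 1) ∨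
    (V.valuation a < 1 ∧ 1 < V.valuation b ∧ V.valuation (a⁻¹ * b⁻¹ * b⁻¹) = 1 ∧
      V.valuation (b + a⁻¹ * b⁻¹) ≤ 1) := by
  set v := V.valuation with hv
  have hva : v a ≠ 0 := (map_ne_zero v).2 ha
  have hvb : v b ≠ 0 := (map_ne_zero v).2 hb
  have hpa : 0 < v a := zero_lt_iff.2 hva
  have hpb : 0 < v b := zero_lt_iff.2 hvb
  -- case distinction
  have hsmall : v a ≤ 1 → v b ≤ 1 → v a = 1 ∧ v b = 1 := by
    intro h1 h2
    have h3 : v (a⁻¹ * b⁻¹) ≤ 1 := by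
      have : a⁻¹ * b⁻¹ = (a + a * b + b + a⁻¹ * b⁻¹) - (a + a * b + b) := by ring
      rw [this]
      refine v.map_sub_le hf ?_
      refine v.map_add_le (v.map_add_le h1 ?_) h2
      rw [map_mul]; exact mul_le_one' h1 h2
    rw [map_mul, map_inv₀, map_inv₀, ← mul_inv] at h3
    have h4 : 1 ≤ v a * v b := (inv_le_one₀ (mul_pos hpa hpb)).1 h3
    constructor
    · refine le_antisymm h1 (h4.trans ?_)
      calc v a * v b ≤ v a * 1 := by gcongr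
        _ = v a := mul_one _
    · refine le_antisymm h2 (h4.trans ?_)
      calc v a * v b ≤ 1 * v b := by gcongr
        _ = v b := one_mul _
  rcases lt_trichotomy (v a) 1 with h1 | h1 | h1
  · rcases le_or_gt (v b) 1 with h2 | h2
    · exact absurd (hsmall h1.le h2).1 h1.ne
    · have hf' : v (b + b * a + a + b⁻¹ * a⁻¹) ≤ 1 := by
        have : b + b * a + a + b⁻¹ * a⁻¹ = a + a * b + b + a⁻¹ * b⁻¹ := by ring
        rw [this]; exact hf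
      obtain ⟨h3, h4⟩ := mixed_aux V hb ha hf' h2 h1
      right; right; right; right
      refine ⟨h1, h2, ?_, ?_⟩
      · rw [← h3]; congr 1; ring
      · convert! h4 using 2; ring
  · rcases lt_trichotomy (v b) 1 with h2 | h2 | h2
    · exact absurd (hsmall h1.le h2.le).2 h2.ne
    · exact Or.inl ⟨h1, h2⟩
    · exact Or.inr (Or.inr (Or.inl ⟨h1, h2⟩))
  · rcases lt_trichotomy (v b) 1 with h2 | h2 | h2
    · obtain ⟨h3, h4⟩ := mixed_aux V ha hb hf h1 h2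
      exact Or.inr (Or.inr (Or.inr (Or.inl ⟨h1, h2, h3, h4⟩)))
    · exact Or.inr (Or.inl ⟨h1, h2⟩)
    · exfalso
      have hsa : v a⁻¹ < 1 := by rw [map_inv₀]; exact (inv_lt_one₀ hpa).2 h1
      have hsb : v b⁻¹ < 1 := by rw [map_inv₀]; exact (inv_lt_one₀ hpb).2 h2
      have e : a + a * b + b + a⁻¹ * b⁻¹ =
          (a * b) * (1 + (b⁻¹ + a⁻¹ + a⁻¹ * a⁻¹ * (b⁻¹ * b⁻¹))) := by field_simp; ring
      rw [e, map_mul, v.map_one_add_of_lt, mul_one, map_mul] at hf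
      · exact absurd hf (not_le.2 (one_lt_mul'' h1 h2))
      · refine v.map_add_lt (v.map_add_lt hsb hsa) ?_
        rw [map_mul, map_mul, map_mul]
        exact mul_lt_one_of_lt_of_le (mul_lt_one_of_lt_of_le hsa hsa.le)
          (mul_lt_one_of_lt_of_le hsb hsb.le).le

/-- The center of a valuation ring containing `f` lies on the torus or on one of the charts. -/
theorem val_cases (V : ValuationSubring K) (hf : f0 ∈ V) :
    (x ∈ V ∧ x⁻¹ ∈ V ∧ y ∈ V ∧ y⁻¹ ∈ V) ∨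
    ∃ s u, IsStd s u ∧ s ∈ V ∧ s⁻¹ ∉ V ∧ s * u - 1 ∈ V ∧ (s * u - 1)⁻¹ ∈ V ∧ u ∈ V := by
  have hx := x_ne
  have hy := y_ne
  have mem : ∀ a : K, a ∈ V ↔ V.valuation a ≤ 1 := fun a => (V.valuation_le_one_iff a).symm
  have hvx : V.valuation x ≠ 0 := (map_ne_zero _).2 hx
  have hvy : V.valuation y ≠ 0 := (map_ne_zero _).2 hy
  have hpx : 0 < V.valuation x := zero_lt_iff.2 hvx
  have hpy : 0 < V.valuation y := zero_lt_iff.2 hvy
  rcases cases_aux V hx hy ((mem _).1 hf) with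
    ⟨h1, h2⟩ | ⟨h1, h2⟩ | ⟨h1, h2⟩ | ⟨h1, h2, h3, h4⟩ | ⟨h1, h2, h3, h4⟩
  · left
    simp only [mem, map_inv₀, h1, h2, inv_one, le_refl, and_self]
  · right
    refine ⟨x⁻¹, x + x * y, Or.inl ⟨rfl, rfl⟩, ?_, ?_, ?_, ?_, ?_⟩
    · rw [mem, map_inv₀]; exact (inv_le_one₀ hpx).2 h1.le
    · rw [inv_inv, mem]; exact not_le.2 h1
    · have hz : x⁻¹ * (x + x * y) - 1 = y := by field_simp; ring
      rw [hz, mem]; exact h2.le
    · have hz : x⁻¹ * (x + x * y) - 1 = y := by field_simp; ring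
      rw [hz, mem, map_inv₀, h2, inv_one]
    · have : x + x * y = f0 - (y + x⁻¹ * y⁻¹) := by rw [f0]; ring
      rw [this]
      refine sub_mem hf (add_mem ?_ (mul_mem ?_ ?_))
      · rw [mem]; exact h2.le
      · rw [mem, map_inv₀]; exact (inv_le_one₀ hpx).2 h1.le
      · rw [mem, map_inv₀, h2, inv_one]
  · right
    refine ⟨y⁻¹, y + x * y, Or.inr (Or.inl ⟨rfl, rfl⟩), ?_, ?_, ?_, ?_, ?_⟩
    · rw [mem, map_inv₀]; exact (inv_le_one₀ hpy).2 h2.le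
    · rw [inv_inv, mem]; exact not_le.2 h2
    · have hz : y⁻¹ * (y + x * y) - 1 = x := by field_simp; ring
      rw [hz, mem]; exact h1.le
    · have hz : y⁻¹ * (y + x * y) - 1 = x := by field_simp; ring
      rw [hz, mem, map_inv₀, h1, inv_one]
    · have : y + x * y = f0 - (x + x⁻¹ * y⁻¹) := by rw [f0]; ring
      rw [this]
      refine sub_mem hf (add_mem ?_ (mul_mem ?_ ?_))
      · rw [mem]; exact h1.le
      · rw [mem, map_inv₀, h1, inv_one]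
      · rw [mem, map_inv₀]; exact (inv_le_one₀ hpy).2 h2.le
  · right
    have hz : x⁻¹ * (x + x⁻¹ * y⁻¹) - 1 = x⁻¹ * x⁻¹ * y⁻¹ := by field_simp; ring
    refine ⟨x⁻¹, x + x⁻¹ * y⁻¹, Or.inr (Or.inr (Or.inl ⟨rfl, rfl⟩)), ?_, ?_, ?_, ?_, ?_⟩
    · rw [mem, map_inv₀]; exact (inv_le_one₀ hpx).2 h1.le
    · rw [inv_inv, mem]; exact not_le.2 h1
    · rw [hz, mem]; exact h3.le
    · rw [hz, mem, map_inv₀ _ (x⁻¹ * x⁻¹ * y⁻¹), h3, inv_one]
    · rw [mem]; exact h4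
  · right
    have hz : y⁻¹ * (y + x⁻¹ * y⁻¹) - 1 = x⁻¹ * y⁻¹ * y⁻¹ := by field_simp; ring
    refine ⟨y⁻¹, y + x⁻¹ * y⁻¹, Or.inr (Or.inr (Or.inr ⟨rfl, rfl⟩)), ?_, ?_, ?_, ?_, ?_⟩
    · rw [mem, map_inv₀]; exact (inv_le_one₀ hpy).2 h2.le
    · rw [inv_inv, mem]; exact not_le.2 h2
    · rw [hz, mem]; exact h3.le
    · rw [hz, mem, map_inv₀ _ (x⁻¹ * y⁻¹ * y⁻¹), h3, inv_one]
    · rw [mem]; exact h4

end Pool.Agent.K7.H1.LG
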