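import Pool.Agent.K7.H1.LG.Torus

set_option autoImplicit false

namespace Pool.Agent.K7.H1.LG

/-- The invariant form `dx/x ∧ dy/y`. -/
noncomputable def ωT : Form 2 := (x⁻¹ * y⁻¹) • W x y

theorem ωT_ne : ωT ≠ 0 := smul_ne_zero (mul_ne_zero (inv_ne_zero x_ne) (inv_ne_zero y_ne)) W_xy_ne

/-- The Laurent polynomial `f` as a rational function. -/
noncomputable def f0 : K := x + x * y + y + x⁻¹ * y⁻¹

theorem F_eq (t : ℂ) : F t = f0 - algebraMap ℂ K t := rfl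

theorem f0_mem : f0 ∈ T :=
  T.add_mem (T.add_mem (T.add_mem x_mem (T.mul_mem x_mem y_mem)) y_mem) (T.mul_mem xi_mem yi_mem)

/-- A chart `ℂ[s, u, 1/(su - 1)]` of the compactification. -/
structure IsChart (s u : K) : Prop where
  s_mem : s ∈ T
  si_mem : s⁻¹ ∈ T
  z_mem : s * u - 1 ∈ T
  zi_mem : (s * u - 1)⁻¹ ∈ T
  s_ne : s ≠ 0
  z_ne : s * u - 1 ≠ 0
  T_le : ∀ O : Subalgebra ℂ K, s ∈ O → s⁻¹ ∈ O → s * u - 1 ∈ O → (s * u - 1)⁻¹ ∈ O → T ≤ O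
  form : W s u = (s * u - 1) • ωT ∨ W s u = -((s * u - 1) • ωT)
  expr : ∃ (δ : ℂ) (h : K), h ∈ Algebra.adjoin ℂ {s} ∧
    f0 = u + algebraMap ℂ K δ * (s * u - 1) + s * h * (s * u - 1)⁻¹

/-- The four charts. -/
def IsStd (s u : K) : Prop :=
  (s = x⁻¹ ∧ u = x + x * y) ∨ (s = y⁻¹ ∧ u = y + x * y) ∨
  (s = x⁻¹ ∧ u = x + x⁻¹ * y⁻¹) ∨ (s = y⁻¹ ∧ u = y + x⁻¹ * y⁻¹)

theorem d_formula (a b c e : K) (p q : K) (hp : d p = a • d x + b • d y)
    (hq : d q = c • d x + e • d y) : W p q = (a * e - b * c) • W x y := by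
  rw [W_eq p q, W_eq x y, hp, hq]
  exact wd_comb a b c e (d x) (d y)

theorem chart1 : IsChart x⁻¹ (x + x * y) := by
  have hx := x_ne
  have hy := y_ne
  have hz : x⁻¹ * (x + x * y) - 1 = y := by field_simp; ring
  constructor
  · exact xi_mem
  · rw [inv_inv]; exact x_mem
  · rw [hz]; exact y_mem
  · rw [hz]; exact yi_mem
  · exact inv_ne_zero hx
  · rw [hz]; exact hy
  · intro O h1 h2 h3 h4
    rw [hz] at h3 h4
    rw [inv_inv] at h2
    exact T_le h2 h1 h3 h4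
  · right
    rw [hz, ωT, smul_smul, d_formula (-(x⁻¹ * x⁻¹)) 0 (1 + y) x, ← neg_smul]
    · congr 1
      field_simp
      ring
    · rw [d_inv hx, zero_smul, add_zero]
    · rw [d_add, d_mul]
      module
  · refine ⟨1, 1, Subalgebra.one_mem _, ?_⟩
    rw [hz, map_one, f0]
    ring

theorem chart2 : IsChart y⁻¹ (y + x * y) := by
  have hx := x_ne
  have hy := y_ne
  have hz : y⁻¹ * (y + x * y) - 1 = x := by field_simp; ring
  constructor
  · exact yi_mem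
  · rw [inv_inv]; exact y_mem
  · rw [hz]; exact x_mem
  · rw [hz]; exact xi_mem
  · exact inv_ne_zero hy
  · rw [hz]; exact hx
  · intro O h1 h2 h3 h4
    rw [hz] at h3 h4
    rw [inv_inv] at h2
    exact T_le h3 h4 h2 h1
  · left
    rw [hz, ωT, smul_smul, d_formula 0 (-(y⁻¹ * y⁻¹)) y (1 + x)]
    · congr 1
      field_simp
      ring
    · rw [d_inv hy, zero_smul, zero_add]
    · rw [d_add, d_mul]
      module
  · refine ⟨1, 1, Subalgebra.one_mem _, ?_⟩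
    rw [hz, map_one, f0]
    ring

theorem chart3 : IsChart x⁻¹ (x + x⁻¹ * y⁻¹) := by
  have hx := x_ne
  have hy := y_ne
  have hz : x⁻¹ * (x + x⁻¹ * y⁻¹) - 1 = x⁻¹ * x⁻¹ * y⁻¹ := by field_simp; ring
  constructor
  · exact xi_mem
  · rw [inv_inv]; exact x_mem
  · rw [hz]; exact T.mul_mem (T.mul_mem xi_mem xi_mem) yi_mem
  · rw [hz, mul_inv, mul_inv, inv_inv, inv_inv]; exact T.mul_mem (T.mul_mem x_mem x_mem) y_mem
  · exact inv_ne_zero hx
  · rw [hz]; exact mul_ne_zero (mul_ne_zero (inv_ne_zero hx) (inv_ne_zero hx)) (inv_ne_zero hy)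
  · intro O h1 h2 h3 h4
    rw [hz] at h3 h4
    rw [inv_inv] at h2
    refine T_le h2 h1 ?_ ?_
    · have : y = x⁻¹ * x⁻¹ * (x⁻¹ * x⁻¹ * y⁻¹)⁻¹ := by field_simp
      rw [this]
      exact O.mul_mem (O.mul_mem h1 h1) h4
    · have : y⁻¹ = x * x * (x⁻¹ * x⁻¹ * y⁻¹) := by field_simp
      rw [this]
      exact O.mul_mem (O.mul_mem h2 h2) h3
  · left
    rw [hz, ωT, smul_smul, d_formula (-(x⁻¹ * x⁻¹)) 0 (1 - x⁻¹ * x⁻¹ * y⁻¹)
      (-(x⁻¹ * (y⁻¹ * y⁻¹)))]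
    · congr 1
      field_simp
      ring
    · rw [d_inv hx, zero_smul, add_zero]
    · rw [d_add, d_mul, d_inv hx, d_inv hy]
      module
  · refine ⟨0, 1 + x⁻¹, Subalgebra.add_mem _ (Subalgebra.one_mem _)
      (Algebra.subset_adjoin rfl), ?_⟩
    rw [hz, map_zero, f0]
    field_simp
    ring

theorem chart4 : IsChart y⁻¹ (y + x⁻¹ * y⁻¹) := by
  have hx := x_ne
  have hy := y_ne
  have hz : y⁻¹ * (y + x⁻¹ * y⁻¹) - 1 = x⁻¹ * y⁻¹ * y⁻¹ := by field_simp; ring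
  constructor
  · exact yi_mem
  · rw [inv_inv]; exact y_mem
  · rw [hz]; exact T.mul_mem (T.mul_mem xi_mem yi_mem) yi_mem
  · rw [hz, mul_inv, mul_inv, inv_inv, inv_inv]; exact T.mul_mem (T.mul_mem x_mem y_mem) y_mem
  · exact inv_ne_zero hy
  · rw [hz]; exact mul_ne_zero (mul_ne_zero (inv_ne_zero hx) (inv_ne_zero hy)) (inv_ne_zero hy)
  · intro O h1 h2 h3 h4
    rw [hz] at h3 h4
    rw [inv_inv] at h2
    refine T_le ?_ ?_ h2 h1
    · have : x = y⁻¹ * y⁻¹ * (x⁻¹ * y⁻¹ * y⁻¹)⁻¹ := by field_simp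
      rw [this]
      exact O.mul_mem (O.mul_mem h1 h1) h4
    · have : x⁻¹ = y * y * (x⁻¹ * y⁻¹ * y⁻¹) := by field_simp
      rw [this]
      exact O.mul_mem (O.mul_mem h2 h2) h3
  · right
    rw [hz, ωT, smul_smul, d_formula 0 (-(y⁻¹ * y⁻¹)) (-(y⁻¹ * (x⁻¹ * x⁻¹)))
      (1 - x⁻¹ * (y⁻¹ * y⁻¹)), ← neg_smul]
    · congr 1
      field_simp
      ring
    · rw [d_inv hy, zero_smul, zero_add]
    · rw [d_add, d_mul, d_inv hx, d_inv hy]
      module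
  · refine ⟨0, 1 + y⁻¹, Subalgebra.add_mem _ (Subalgebra.one_mem _)
      (Algebra.subset_adjoin rfl), ?_⟩
    rw [hz, map_zero, f0]
    field_simp
    ring

theorem IsStd.isChart {s u : K} (h : IsStd s u) : IsChart s u := by
  rcases h with ⟨rfl, rfl⟩ | ⟨rfl, rfl⟩ | ⟨rfl, rfl⟩ | ⟨rfl, rfl⟩
  · exact chart1
  · exact chart2
  · exact chart3
  · exact chart4

end Pool.Agent.K7.H1.LG
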