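import Pool.Agent.K7.H1.LG.Points

set_option autoImplicit false

namespace Pool.Agent.K7.H1.LG

variable {n : ℕ}

/-- A localisation of a local ring of `Spec A` is a local ring of `Spec A`. -/
theorem locAt_locAt {A : Subalgebra ℂ (RatFun n)} {P : Ideal A} [hP : P.IsPrime]
    (Q : Ideal (locAt A P)) [hQ : Q.IsPrime] : locAt (locAt A P) Q ∈ points A := by
  let ι : A →+* locAt A P := (Subalgebra.inclusion (le_locAt A P)).toRingHom
  have hι : ∀ a : A, ((ι a : locAt A P) : RatFun n) = a := fun a => rfl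
  have hunit : ∀ s : A, s ∉ P → ι s ∉ Q := by
    intro s hs hsQ
    have h0 : (s : RatFun n) ≠ 0 := by
      intro h
      apply hs
      have : s = 0 := Subtype.ext h
      rw [this]; exact P.zero_mem
    apply hQ.ne_top
    rw [Ideal.eq_top_iff_one]
    have : (1 : locAt A P) = ι s * ⟨(s : RatFun n)⁻¹, inv_mem_locAt hs⟩ := by
      apply Subtype.ext
      push_cast
      rw [hι]
      field_simp
    rw [this]
    exact Q.mul_mem_right _ hsQ
  refine mem_points_iff.2 ⟨Q.comap ι, inferInstance, ?_⟩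
  ext x
  constructor
  · rintro ⟨⟨a, ha⟩, ⟨s, hs⟩, hsQ, h⟩
    obtain ⟨a₁, a₂, ha₂, ha0, rfl⟩ := exists_frac ha
    obtain ⟨s₁, s₂, hs₂, hs0, rfl⟩ := exists_frac hs
    refine ⟨a₁ * s₂, s₁ * a₂, ?_, ?_⟩
    · rw [Ideal.mem_comap, map_mul]
      intro hmem
      rcases hQ.mem_or_mem hmem with h1 | h1
      · apply hsQ
        have : (⟨(s₁ : RatFun n) * (s₂ : RatFun n)⁻¹, hs⟩ : locAt A P) =
            ι s₁ * ⟨(s₂ : RatFun n)⁻¹, inv_mem_locAt hs₂⟩ := by
          apply Subtype.ext
          push_cast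
          rw [hι]
        rw [this]
        exact Q.mul_mem_right _ h1
      · exact hunit a₂ ha₂ h1
    · push_cast
      have h' : x * ((s₁ : RatFun n) * (s₂ : RatFun n)⁻¹) =
        (a₁ : RatFun n) * (a₂ : RatFun n)⁻¹ := h
      field_simp at h' ⊢
      linear_combination h'
  · rintro ⟨a, s, hs, h⟩
    exact ⟨ι a, ι s, fun hmem => hs hmem, h⟩

/-- `x` is a nonunit of `O`. -/
def NonUnit (O : Subalgebra ℂ (RatFun n)) (x : RatFun n) : Prop := ¬ ∃ g ∈ O, x * g = 1

theorem nonUnit_iff {O : Subalgebra ℂ (RatFun n)} [IsLocalRing O] (x : O) :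
    NonUnit O (x : RatFun n) ↔ x ∈ IsLocalRing.maximalIdeal O := by
  rw [IsLocalRing.mem_maximalIdeal, mem_nonunits_iff, NonUnit, not_iff_not]
  constructor
  · rintro ⟨g, hg, h⟩
    exact IsUnit.of_mul_eq_one ⟨g, hg⟩ (Subtype.ext h)
  · intro hu
    obtain ⟨b, hb⟩ := hu.exists_right_inv
    exact ⟨b, b.2, congrArg Subtype.val hb⟩

theorem component_dvr {f : Laurent n} {t : ℂ} {Y : Set (Subalgebra ℂ (RatFun n))}
    (hY : IsCYCompactification f Y) {O : Subalgebra ℂ (RatFun n)}
    (hne : toFun f - algebraMap ℂ (RatFun n) t ≠ 0)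
    (hO : O ∈ fibreComponents f Y t) :
    (∃ π ∈ O, NonUnit O π ∧ ∀ x ∈ O, NonUnit O x → ∃ y ∈ O, x = π * y) ∧
      ∀ x : RatFun n, x ∈ O ∨ x⁻¹ ∈ O := by
  obtain ⟨hOY, hfib, hmax⟩ := hO
  obtain ⟨C, -, hC, hYC⟩ := hY.charts
  have hreg := hY.smooth O hOY
  set F : O := ⟨toFun f - algebraMap ℂ (RatFun n) t,
    O.sub_mem (hY.regular O hOY) (O.algebraMap_mem t)⟩ with hF
  have hFm : F ∈ IsLocalRing.maximalIdeal O := (nonUnit_iff F).1 hfib
  have hOC : ∃ A ∈ C, O ∈ points A := by rw [hYC] at hOY; exact hOY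
  obtain ⟨A, hA, hOA⟩ := hOC
  -- the maximal ideal is minimal over `F`
  have hmin : IsLocalRing.maximalIdeal O ∈ (Ideal.span {F}).minimalPrimes := by
    refine ⟨⟨inferInstance, ?_⟩, ?_⟩
    · rw [Ideal.span_singleton_le_iff_mem]; exact hFm
    · rintro q ⟨hq, hqF⟩ hqm
      rw [Ideal.span_singleton_le_iff_mem] at hqF
      have hloc : locAt O q ∈ Y := by
        rw [hYC]
        refine ⟨A, hA, ?_⟩
        obtain ⟨P, hP, rfl⟩ := mem_points_iff.1 hOA
        exact locAt_locAt q
      have hlocfib : OnFibre f t (locAt O q) := by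
        rintro ⟨g, hg, hg1⟩
        have hF0 : (F : RatFun n) ≠ 0 := left_ne_zero_of_mul_eq_one hg1
        have : (F : RatFun n)⁻¹ ∈ locAt O q := by
          rw [show (F : RatFun n)⁻¹ = g from (eq_inv_of_mul_eq_one_right hg1).symm]
          exact hg
        exact not_mem_of_inv_mem hF0 this hqF
      have heq : locAt O q = O := hmax _ hloc hlocfib (le_locAt O q)
      intro z hz
      by_contra hzq
      have hzi : (z : RatFun n)⁻¹ ∈ O := heq.le (inv_mem_locAt hzq)
      have hz0 : (z : RatFun n) ≠ 0 := by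
        intro h
        apply hzq
        have : z = 0 := Subtype.ext h
        rw [this]; exact q.zero_mem
      exact (nonUnit_iff z).2 hz ⟨_, hzi, mul_inv_cancel₀ hz0⟩
  have hht : (IsLocalRing.maximalIdeal O).height ≤ 1 :=
    Ideal.height_le_one_of_isPrincipal_of_mem_minimalPrimes (Ideal.span {F}) _ hmin
  have hdim : ringKrullDim O ≤ 1 := by
    rw [← IsLocalRing.maximalIdeal_height_eq_ringKrullDim]
    exact_mod_cast hht
  have hspan : (IsLocalRing.maximalIdeal O).spanFinrank ≤ 1 := by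
    have := hreg.spanFinrank_maximalIdeal
    rw [← this] at hdim
    exact_mod_cast hdim
  have hprinc : (IsLocalRing.maximalIdeal O).IsPrincipal := by
    have hfg : (IsLocalRing.maximalIdeal O).FG := IsNoetherian.noetherian _
    have h0 : (IsLocalRing.maximalIdeal O).spanFinrank ≠ 0 := by
      rw [Ne, Submodule.spanFinrank_eq_zero_iff_eq_bot hfg]
      intro hbot
      rw [hbot, Ideal.mem_bot] at hFm
      exact hne (congrArg Subtype.val hFm)
    exact ((Submodule.spanFinrank_eq_one_iff _).1 (by omega)).1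
  have hval : ValuationRing O :=
    ((tfae_of_isNoetherianRing_of_isLocalRing_of_isDomain O).out 1 4).2 hprinc
  obtain ⟨π, hπ⟩ := hprinc
  have hπm : π ∈ IsLocalRing.maximalIdeal O := by rw [hπ]; exact Submodule.mem_span_singleton_self π
  refine ⟨⟨π, π.2, (nonUnit_iff π).2 hπm, ?_⟩, ?_⟩
  · intro x hx hxn
    have hxm : (⟨x, hx⟩ : O) ∈ IsLocalRing.maximalIdeal O := (nonUnit_iff ⟨x, hx⟩).1 hxn
    rw [hπ, Submodule.mem_span_singleton] at hxm
    obtain ⟨y, hy⟩ := hxm
    refine ⟨y, y.2, ?_⟩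
    have := congrArg Subtype.val hy
    rw [mul_comm]
    exact this.symm
  · intro x
    obtain ⟨a, ha, s, hs, hs0, rfl⟩ := (hC A hA).2 x
    have haO := le_of_mem_points hOA ha
    have hsO := le_of_mem_points hOA hs
    by_cases ha0 : a = 0
    · left; rw [ha0, zero_div]; exact O.zero_mem
    rcases ValuationRing.cond (⟨a, haO⟩ : O) ⟨s, hsO⟩ with ⟨c, hc | hc⟩
    · right
      have hc' : a * (c : RatFun n) = s := congrArg Subtype.val hc
      rw [inv_div, ← hc', mul_div_cancel_left₀ _ ha0]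
      exact c.2
    · left
      have hc' : s * (c : RatFun n) = a := congrArg Subtype.val hc
      rw [← hc', mul_div_cancel_left₀ _ hs0]
      exact c.2

end Pool.Agent.K7.H1.LG
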