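import Mathlib

/-!
# Toric Landau-Ginzburg models and their Calabi-Yau compactifications

An integral separated scheme of finite type over `ℂ` containing the torus `(ℂ^×)^n` as an open
subscheme has function field `ℂ(x₁, …, xₙ)` and is recorded by the set of its local rings, which
are `ℂ`-subalgebras of `ℂ(x₁, …, xₙ)`; these sets are the models of Zariski and Chevalley
(Zariski-Samuel, Commutative Algebra II, Ch. VI, sections 17-18).
-/

set_option autoImplicit false

namespace Pool.Agent.K7.H1.LG

/-- The field `ℂ(x₁, …, xₙ)` of rational functions on the torus `(ℂ^×)^n`. -/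
def RatFun (n : ℕ) : Type := FractionRing (MvPolynomial (Fin n) ℂ)

noncomputable instance (n : ℕ) : Field (RatFun n) :=
  FractionRing.field (MvPolynomial (Fin n) ℂ)

noncomputable instance (n : ℕ) : Algebra ℂ (RatFun n) :=
  OreLocalization.instAlgebra (R := MvPolynomial (Fin n) ℂ)

/-- The coordinate functions `x₁, …, xₙ`. -/
noncomputable def coord {n : ℕ} (i : Fin n) : RatFun n :=
  algebraMap (MvPolynomial (Fin n) ℂ) (FractionRing (MvPolynomial (Fin n) ℂ)) (MvPolynomial.X i)

/-- The ring `ℂ[x₁^±1, …, xₙ^±1]` of Laurent polynomials: the group algebra of `ℤ^n`. -/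
abbrev Laurent (n : ℕ) : Type := AddMonoidAlgebra ℂ (Fin n → ℤ)

variable {n : ℕ}

/-- The monomial `x^m = x₁^m₁ ⋯ xₙ^mₙ` as a rational function. -/
noncomputable def mono (m : Fin n → ℤ) : RatFun n :=
  ∏ i, coord i ^ m i

/-- The rational function on the torus defined by a Laurent polynomial. -/
noncomputable def toFun (f : Laurent n) : RatFun n :=
  f.coeff.sum fun m c => c • mono m

/-- The ring of regular functions on the torus `(ℂ^×)^n`, as a subring of `ℂ(x₁, …, xₙ)`. -/
noncomputable def torusRing (n : ℕ) : Subalgebra ℂ (RatFun n) :=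
  Algebra.adjoin ℂ (Set.range (mono (n := n)))

/-- The set of local rings of the affine variety `Spec A`: the localisations `A_P ⊆ ℂ(x₁, …, xₙ)`
at the prime ideals `P` of `A`. -/
def points (A : Subalgebra ℂ (RatFun n)) : Set (Subalgebra ℂ (RatFun n)) :=
  {O | ∃ P : Ideal A, P.IsPrime ∧ ∀ x : RatFun n,
    x ∈ O ↔ ∃ a s : A, s ∉ P ∧ x * (s : RatFun n) = (a : RatFun n)}

/-- The valuation ring `V` contains the constants. -/
def OverC (V : ValuationSubring (RatFun n)) : Prop :=
  ∀ c : ℂ, algebraMap ℂ (RatFun n) c ∈ V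

/-- The valuation ring `V` dominates the local ring `O`: `O ⊆ V`, and every element of `O` which
is a unit of `V` is a unit of `O`. -/
def Dominates (V : ValuationSubring (RatFun n)) (O : Subalgebra ℂ (RatFun n)) : Prop :=
  (∀ x ∈ O, x ∈ V) ∧ ∀ x ∈ O, x⁻¹ ∈ V → x⁻¹ ∈ O

/-- `Y` is (the set of local rings of) an integral separated scheme of finite type over `ℂ` with
function field `ℂ(x₁, …, xₙ)`: a finite union of affine models `Spec A`, where each `A` is a
finitely generated `ℂ`-algebra with fraction field `ℂ(x₁, …, xₙ)`, such that every valuation ring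
of `ℂ(x₁, …, xₙ)/ℂ` dominates at most one of the local rings (separatedness). -/
structure IsModel (Y : Set (Subalgebra ℂ (RatFun n))) : Prop where
  charts : ∃ C : Set (Subalgebra ℂ (RatFun n)), C.Finite ∧
    (∀ A ∈ C, A.FG ∧ ∀ x : RatFun n, ∃ a ∈ A, ∃ s ∈ A, s ≠ 0 ∧ x = a / s) ∧
    Y = {O | ∃ A ∈ C, O ∈ points A}
  separated : ∀ V : ValuationSubring (RatFun n), OverC V → ∀ O ∈ Y, ∀ O' ∈ Y,
    Dominates V O → Dominates V O' → O = O'

/-- The rational vector fields: the derivations of `ℂ(x₁, …, xₙ)` over `ℂ`. -/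
abbrev VectorField (n : ℕ) : Type := Derivation ℂ (RatFun n) (RatFun n)

/-- The functions of `n` rational vector fields; the rational `n`-forms are the alternating
multilinear ones. -/
abbrev Form (n : ℕ) : Type := (Fin n → VectorField n) → RatFun n

/-- The rational `n`-form `db₁ ∧ ⋯ ∧ dbₙ`, which sends the vector fields `D₁, …, Dₙ` to the
determinant of the matrix `(Dᵢ bⱼ)`. -/
noncomputable def wedge (b : Fin n → RatFun n) : Form n :=
  fun D => Matrix.det (Matrix.of fun i j => D i (b j))

/-- The canonical module of a smooth local ring `O ⊆ ℂ(x₁, …, xₙ)`: the `O`-submodule of the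
rational `n`-forms generated by the forms `db₁ ∧ ⋯ ∧ dbₙ` with `b₁, …, bₙ ∈ O`. -/
noncomputable def canonicalModule (O : Subalgebra ℂ (RatFun n)) : Submodule O (Form n) :=
  Submodule.span O {ω | ∃ b : Fin n → RatFun n, (∀ i, b i ∈ O) ∧ ω = wedge b}

/-- `Y`, with the morphism `w : Y → 𝔸¹` given by the rational function `f`, is a Calabi-Yau
compactification of the Laurent polynomial `f`. -/
structure IsCYCompactification (f : Laurent n) (Y : Set (Subalgebra ℂ (RatFun n))) : Prop
    extends IsModel Y where
  /-- `Y` is smooth. -/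
  smooth : ∀ O ∈ Y, IsRegularLocalRing O
  /-- The canonical class of `Y` is trivial: a rational `n`-form generates the canonical module
  at every point. -/
  canonical : ∃ ω : Form n, ∀ O ∈ Y, canonicalModule O = Submodule.span O {ω}
  /-- The torus is open in `Y`. -/
  torus : points (torusRing n) ⊆ Y
  /-- `f` is a regular function on `Y`, that is, a morphism `w : Y → 𝔸¹`. -/
  regular : ∀ O ∈ Y, toFun f ∈ O
  /-- `w` is proper (valuative criterion; uniqueness is `separated`). -/
  proper : ∀ V : ValuationSubring (RatFun n), OverC V → toFun f ∈ V → ∃ O ∈ Y, Dominates V O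

/-- The point `O` of `Y` lies on the fibre of `w` over `t`: `f - t` is not invertible in `O`. -/
def OnFibre (f : Laurent n) (t : ℂ) (O : Subalgebra ℂ (RatFun n)) : Prop :=
  ¬ ∃ g ∈ O, (toFun f - algebraMap ℂ (RatFun n) t) * g = 1

/-- The irreducible components of the fibre `w⁻¹(t)`, each given by its generic point: a point
`O` of the fibre which is not a proper specialisation of a point of the fibre (`O'` specialises
to `O` exactly when `O ⊆ O'`). -/
def fibreComponents (f : Laurent n) (Y : Set (Subalgebra ℂ (RatFun n))) (t : ℂ) :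
    Set (Subalgebra ℂ (RatFun n)) :=
  {O | O ∈ Y ∧ OnFibre f t O ∧ ∀ O' ∈ Y, OnFibre f t O' → O ≤ O' → O' = O}

/-- The number `k_Y`: the sum over the fibres `F` of `w` of the number of irreducible components
of `F` minus one. -/
noncomputable def kNumber (f : Laurent n) (Y : Set (Subalgebra ℂ (RatFun n))) : ℕ :=
  ∑ᶠ t : ℂ, ((fibreComponents f Y t).ncard - 1)

/-- The Laurent polynomial `∑ᵢ x^(ρᵢ)`. -/
noncomputable def laurentOf {r : ℕ} (ρ : Fin r → Fin n → ℤ) : Laurent n :=
  ∑ i, AddMonoidAlgebra.single (ρ i) 1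

/-- The coefficient of `t^k` in the classical period `π_f`: the constant term of `f^k`. -/
noncomputable def classicalPeriod (f : Laurent n) (k : ℕ) : ℂ := (f ^ k).coeff 0

/-- The coefficient of `t^k` in the regularized quantum period of the smooth toric Fano variety
whose fan has the primitive ray generators `ρ₁, …, ρᵣ` (Givental's formula): the sum over the
relations `m₁ρ₁ + ⋯ + mᵣρᵣ = 0` with `mᵢ ≥ 0` and `m₁ + ⋯ + mᵣ = k` (these are the curve classes
`β` with `Dᵢ·β = mᵢ ≥ 0` and `-K·β = k`) of `k! / (m₁! ⋯ mᵣ!)`. -/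
def toricQuantumPeriod {r : ℕ} (ρ : Fin r → Fin n → ℤ) (k : ℕ) : ℕ :=
  ∑ m ∈ Finset.piAntidiag (Finset.univ : Finset (Fin r)) k with ∑ i, m i • ρ i = 0,
    Nat.multinomial Finset.univ m

/-- The determinant of two plane vectors. -/
def det2 (a b : Fin 2 → ℤ) : ℤ := a 0 * b 1 - a 1 * b 0

/-- `ρ₀, …, ρ_{r-1}` are the vertices, in counterclockwise cyclic order, of a smooth Fano polygon:
consecutive vertices form a positively oriented basis of `ℤ²` and all other vertices lie strictly
on the left of the line through them. The cones over the edges are then the maximal cones of the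
fan of a smooth toric del Pezzo surface `X`, and `X = T_f` for `f = ∑ᵢ x^(ρᵢ)`. -/
structure IsSmoothFanoPolygon {r : ℕ} [NeZero r] (ρ : Fin r → Fin 2 → ℤ) : Prop where
  basis : ∀ i, det2 (ρ i) (ρ (i + 1)) = 1
  convex : ∀ i j, j ≠ i → j ≠ i + 1 → 0 < det2 (ρ (i + 1) - ρ i) (ρ j - ρ i)

/-- The Hodge number `h^{1,1}` of the smooth complete toric variety with ray generators `ρᵢ`: the
rank of its divisor class group, the cokernel of `ℤⁿ → ℤʳ`, `m ↦ (⟨m, ρ₁⟩, …, ⟨m, ρᵣ⟩)`. -/
noncomputable def hodge11 {r : ℕ} (ρ : Fin r → Fin n → ℤ) : ℕ :=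
  Module.finrank ℤ ((Fin r → ℤ) ⧸ LinearMap.range (Matrix.mulVecLin (Matrix.of ρ)))

/-- The primitive generators of the rays of the fan of `F₁`, the blow-up of the projective plane
at a point. -/
def raysF1 : Fin 4 → Fin 2 → ℤ := ![![1, 0], ![1, 1], ![0, 1], ![-1, -1]]

end Pool.Agent.K7.H1.LG
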