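import Pool.Agent.K7.H1.LG.Model

set_option autoImplicit false

namespace Pool.Agent.K7.H1.LG

theorem T_eq : T = Algebra.adjoin ℂ {x, x⁻¹, y, y⁻¹} := by
  apply le_antisymm
  · exact T_le (Algebra.subset_adjoin (by simp)) (Algebra.subset_adjoin (by simp))
      (Algebra.subset_adjoin (by simp)) (Algebra.subset_adjoin (by simp))
  · refine Algebra.adjoin_le ?_
    rintro k (rfl | rfl | rfl | rfl)
    · exact x_mem
    · exact xi_mem
    · exact y_mem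
    · exact yi_mem

theorem T_fg : T.FG := by
  rw [T_eq]
  exact Subalgebra.fg_def.2 ⟨_, by simp, rfl⟩

theorem A_fg (s u : K) : (A s u).FG := Subalgebra.fg_def.2 ⟨_, by simp, rfl⟩

theorem T_frac (k : K) : ∃ a ∈ T, ∃ b ∈ T, b ≠ 0 ∧ k = a / b := frac_of (le_Fr T) k

theorem IsChart.frac {s u : K} (h : IsChart s u) (k : K) :
    ∃ a ∈ A s u, ∃ b ∈ A s u, b ≠ 0 ∧ k = a / b := by
  obtain ⟨a, ha, b, hb, hb0, hk⟩ := frac_of h.T_le_Fr k
  exact ⟨a, B_le_A s u ha, b, B_le_A s u hb, hb0, hk⟩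

theorem IsChart.A_le_T {s u : K} (h : IsChart s u) : A s u ≤ T := by
  refine A_le h.s_mem ?_ h.zi_mem
  have : u = s⁻¹ * ((s * u - 1) + 1) := by
    have := h.s_ne
    field_simp
    ring
  rw [this]
  exact T.mul_mem h.si_mem (T.add_mem h.z_mem T.one_mem)

theorem pol_memB (P : Pol) : algebraMap Pol K P ∈ B x y := by
  induction P using MvPolynomial.induction_on with
  | C a =>
    rw [← MvPolynomial.algebraMap_eq, ← IsScalarTower.algebraMap_apply]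
    exact (B x y).algebraMap_mem a
  | add p q hp hq => rw [map_add]; exact (B x y).add_mem hp hq
  | mul_X p i hp =>
    rw [map_mul]
    refine (B x y).mul_mem hp ?_
    fin_cases i
    · exact s_memB x y
    · exact u_memB x y

theorem T_le_Fr_xy : T ≤ Fr (B x y) :=
  T_le (le_Fr _ (s_memB x y)) (Fr_inv _ (le_Fr _ (s_memB x y))) (le_Fr _ (u_memB x y))
    (Fr_inv _ (le_Fr _ (u_memB x y)))

theorem points_T : points T ⊆ points (B x y) := by
  refine points_of_loc (e := x * y) ?_ ((B x y).mul_mem (s_memB x y) (u_memB x y)) xy_ne ?_ ?_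
  · refine Algebra.adjoin_le ?_
    rintro _ ⟨i, rfl⟩
    fin_cases i
    · exact x_mem
    · exact y_mem
  · rw [mul_inv]; exact T.mul_mem xi_mem yi_mem
  · intro a ha
    obtain ⟨m, P, hP⟩ := exists_pol ha
    exact ⟨m, by rw [hP]; exact pol_memB P⟩

theorem torus_canonical {O : Subalgebra ℂ K} (hO : O ∈ points T) :
    canonicalModule O = Submodule.span O {ωT} := by
  have hle := le_of_mem_points hO
  obtain ⟨P, hP, rfl⟩ := mem_points_iff.1 (points_T hO)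
  have h1 : canonicalModule (locAt (B x y) P) = Submodule.span (locAt (B x y) P) {W x y} := by
    refine canonical_eq (hle x_mem) (hle y_mem) ?_
    rintro _ ⟨i, rfl⟩
    fin_cases i
    · exact mem_N.2 ⟨1, Subalgebra.one_mem _, 0, Subalgebra.zero_mem _, by simp⟩
    · exact mem_N.2 ⟨0, Subalgebra.zero_mem _, 1, Subalgebra.one_mem _, by simp⟩
  rw [h1, ωT]
  refine (span_unit (Subalgebra.mul_mem _ (hle xi_mem) (hle yi_mem)) ?_
    (mul_ne_zero (inv_ne_zero x_ne) (inv_ne_zero y_ne)) _).symm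
  rw [mul_inv, inv_inv, inv_inv]
  exact Subalgebra.mul_mem _ (hle x_mem) (hle y_mem)

/-- The explicit Calabi-Yau compactification. -/
def Y0 : Set (Subalgebra ℂ K) :=
  {O | O ∈ points T ∨ ∃ s u, IsStd s u ∧ O ∈ points (A s u)}

/-- A point dominated by a valuation ring with center on the torus. -/
theorem eq_of_torus {V : ValuationSubring K} {O A' : Subalgebra ℂ K} (hO : O ∈ points A')
    (hAT : A' ≤ T) (hTO : T ≤ O) (hV : Dominates V O) :
    ∃ h : ∀ k ∈ T, k ∈ V, O = locAt T (centerIdeal T V h) := by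
  refine ⟨fun k hk => hV.1 k (hTO hk), ?_⟩
  obtain ⟨hA, hOeq⟩ := eq_center_of_dominates hO hV
  ext k
  constructor
  · intro hk
    rw [hOeq] at hk
    obtain ⟨a, s, hs, hks⟩ := hk
    refine ⟨⟨a, hAT a.2⟩, ⟨s, hAT s.2⟩, ?_, hks⟩
    rw [not_mem_centerIdeal] at hs ⊢
    exact hs
  · intro hk
    obtain ⟨a, s, hs, hs0, rfl⟩ := exists_frac hk
    exact O.mul_mem (hTO a.2) (hV.2 _ (hTO s.2) (not_mem_centerIdeal.1 hs).2)

theorem locAt_congr {A' : Subalgebra ℂ K} {V : ValuationSubring K}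
    (h h' : ∀ k ∈ A', k ∈ V) : locAt A' (centerIdeal A' V h) = locAt A' (centerIdeal A' V h') :=
  rfl

/-- The four charts are separated at the boundary. -/
theorem std_unique {V : ValuationSubring K} {s u s' u' : K} (h : IsStd s u) (h' : IsStd s' u')
    (h1 : s ∈ V) (h2 : s⁻¹ ∉ V) (h3 : s * u - 1 ∈ V) (h4 : (s * u - 1)⁻¹ ∈ V)
    (h1' : s' ∈ V) (h2' : s'⁻¹ ∉ V) (h3' : s' * u' - 1 ∈ V) (h4' : (s' * u' - 1)⁻¹ ∈ V) :
    s = s' ∧ u = u' := by
  have hx := x_ne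
  have hy := y_ne
  have hz1 : x⁻¹ * (x + x * y) - 1 = y := by field_simp; ring
  have hz2 : y⁻¹ * (y + x * y) - 1 = x := by field_simp; ring
  have hz3 : x⁻¹ * (x + x⁻¹ * y⁻¹) - 1 = x⁻¹ * x⁻¹ * y⁻¹ := by field_simp; ring
  have hz4 : y⁻¹ * (y + x⁻¹ * y⁻¹) - 1 = x⁻¹ * y⁻¹ * y⁻¹ := by field_simp; ring
  have sig : ∀ s u : K, IsStd s u → s ∈ V → s⁻¹ ∉ V → s * u - 1 ∈ V → (s * u - 1)⁻¹ ∈ V →
      (s = x⁻¹ ∧ u = x + x * y ∧ x ∉ V ∧ y ∈ V ∧ y⁻¹ ∈ V) ∨
      (s = y⁻¹ ∧ u = y + x * y ∧ y ∉ V ∧ x ∈ V ∧ x⁻¹ ∈ V) ∨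
      (s = x⁻¹ ∧ u = x + x⁻¹ * y⁻¹ ∧ x ∉ V ∧ y ∈ V ∧ y⁻¹ ∉ V) ∨
      (s = y⁻¹ ∧ u = y + x⁻¹ * y⁻¹ ∧ y ∉ V ∧ x ∈ V ∧ x⁻¹ ∉ V) := by
    intro s u h h1 h2 h3 h4
    rcases h with ⟨rfl, rfl⟩ | ⟨rfl, rfl⟩ | ⟨rfl, rfl⟩ | ⟨rfl, rfl⟩
    · rw [hz1] at h3 h4; rw [inv_inv] at h2
      exact Or.inl ⟨rfl, rfl, h2, h3, h4⟩
    · rw [hz2] at h3 h4; rw [inv_inv] at h2
      exact Or.inr (Or.inl ⟨rfl, rfl, h2, h3, h4⟩)
    · rw [hz3] at h3 h4; rw [inv_inv] at h2
      have hyV : y ∈ V := by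
        have : y = x⁻¹ * x⁻¹ * (x⁻¹ * x⁻¹ * y⁻¹)⁻¹ := by field_simp
        rw [this]; exact mul_mem (mul_mem h1 h1) h4
      refine Or.inr (Or.inr (Or.inl ⟨rfl, rfl, h2, hyV, ?_⟩))
      intro hyi
      apply h2
      have : x = x⁻¹ * y⁻¹ * (x⁻¹ * x⁻¹ * y⁻¹)⁻¹ := by field_simp
      rw [this]; exact mul_mem (mul_mem h1 hyi) h4
    · rw [hz4] at h3 h4; rw [inv_inv] at h2
      have hxV : x ∈ V := by
        have : x = y⁻¹ * y⁻¹ * (x⁻¹ * y⁻¹ * y⁻¹)⁻¹ := by field_simp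
        rw [this]; exact mul_mem (mul_mem h1 h1) h4
      refine Or.inr (Or.inr (Or.inr ⟨rfl, rfl, h2, hxV, ?_⟩))
      intro hxi
      apply h2
      have : y = y⁻¹ * x⁻¹ * (x⁻¹ * y⁻¹ * y⁻¹)⁻¹ := by field_simp
      rw [this]; exact mul_mem (mul_mem h1 hxi) h4
  rcases sig s u h h1 h2 h3 h4 with ⟨rfl, rfl, a1, a2, a3⟩ | ⟨rfl, rfl, a1, a2, a3⟩ |
    ⟨rfl, rfl, a1, a2, a3⟩ | ⟨rfl, rfl, a1, a2, a3⟩ <;>
  rcases sig s' u' h' h1' h2' h3' h4' with ⟨rfl, rfl, b1, b2, b3⟩ | ⟨rfl, rfl, b1, b2, b3⟩ |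
    ⟨rfl, rfl, b1, b2, b3⟩ | ⟨rfl, rfl, b1, b2, b3⟩ <;>
  first
  | exact ⟨rfl, rfl⟩
  | exact absurd a2 b1
  | exact absurd b2 a1
  | exact absurd a3 b3
  | exact absurd b3 a3

theorem Y0_separated (V : ValuationSubring K) (O : Subalgebra ℂ K) (hO : O ∈ Y0)
    (O' : Subalgebra ℂ K) (hO' : O' ∈ Y0) (hd : Dominates V O) (hd' : Dominates V O') :
    O = O' := by
  by_cases hTV : ∀ k ∈ T, k ∈ V
  · have key : ∀ O ∈ Y0, Dominates V O → O = locAt T (centerIdeal T V hTV) := by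
      intro O hO hd
      rcases hO with hO | ⟨s, u, hsu, hO⟩
      · obtain ⟨h, e⟩ := eq_center_of_dominates hO hd
        exact e
      · have hc := hsu.isChart
        have hAO := le_of_mem_points hO
        have hTO : T ≤ O := hc.T_le O (hAO (s_memA s u))
          (hd.2 _ (hAO (s_memA s u)) (hTV _ hc.si_mem)) (hAO (z_memA s u)) (hAO (zi_memA s u))
        obtain ⟨h, e⟩ := eq_of_torus hO hc.A_le_T hTO hd
        exact e
    rw [key O hO hd, key O' hO' hd']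
  · have key : ∀ O ∈ Y0, Dominates V O → ∃ s u, IsStd s u ∧ O ∈ points (A s u) ∧ s ∈ V ∧
        s⁻¹ ∉ V ∧ s * u - 1 ∈ V ∧ (s * u - 1)⁻¹ ∈ V := by
      intro O hO hd
      rcases hO with hO | ⟨s, u, hsu, hO⟩
      · exact absurd (fun k hk => hd.1 k (le_of_mem_points hO hk)) hTV
      · have hc := hsu.isChart
        have hAO := le_of_mem_points hO
        refine ⟨s, u, hsu, hO, hd.1 _ (hAO (s_memA s u)), ?_, hd.1 _ (hAO (z_memA s u)),
          hd.1 _ (hAO (zi_memA s u))⟩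
        intro hsi
        apply hTV
        have hTO : T ≤ O := hc.T_le O (hAO (s_memA s u))
          (hd.2 _ (hAO (s_memA s u)) hsi) (hAO (z_memA s u)) (hAO (zi_memA s u))
        exact fun k hk => hd.1 k (hTO hk)
    obtain ⟨s, u, hsu, hO, h1, h2, h3, h4⟩ := key O hO hd
    obtain ⟨s', u', hsu', hO', h1', h2', h3', h4'⟩ := key O' hO' hd'
    obtain ⟨rfl, rfl⟩ := std_unique hsu hsu' h1 h2 h3 h4 h1' h2' h3' h4'
    obtain ⟨h, e⟩ := eq_center_of_dominates hO hd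
    obtain ⟨h', e'⟩ := eq_center_of_dominates hO' hd'
    rw [e, e']

/-- The set of chart rings. -/
def chartSet : Set (Subalgebra ℂ K) := {A' | A' = T ∨ ∃ s u, IsStd s u ∧ A' = A s u}

theorem chartSet_finite : chartSet.Finite := by
  have : chartSet ⊆ {T, A x⁻¹ (x + x * y), A y⁻¹ (y + x * y), A x⁻¹ (x + x⁻¹ * y⁻¹),
      A y⁻¹ (y + x⁻¹ * y⁻¹)} := by
    rintro A' (rfl | ⟨s, u, h, rfl⟩)
    · simp
    · rcases h with ⟨rfl, rfl⟩ | ⟨rfl, rfl⟩ | ⟨rfl, rfl⟩ | ⟨rfl, rfl⟩ <;> simp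
  exact Set.Finite.subset (by simp) this

theorem Y0_isModel : IsModel Y0 where
  charts := by
    refine ⟨chartSet, chartSet_finite, ?_, ?_⟩
    · rintro A' (rfl | ⟨s, u, h, rfl⟩)
      · exact ⟨T_fg, T_frac⟩
      · exact ⟨A_fg s u, h.isChart.frac⟩
    · ext O
      constructor
      · rintro (hO | ⟨s, u, h, hO⟩)
        · exact ⟨T, Or.inl rfl, hO⟩
        · exact ⟨A s u, Or.inr ⟨s, u, h, rfl⟩, hO⟩
      · rintro ⟨A', rfl | ⟨s, u, h, rfl⟩, hO⟩
        · exact Or.inl hO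
        · exact Or.inr ⟨s, u, h, hO⟩
  separated := fun V _ O hO O' hO' hd hd' => Y0_separated V O hO O' hO' hd hd'

theorem Y0_isCY {f : Laurent 2} (hf : toFun f = f0) : IsCYCompactification f Y0 where
  toIsModel := Y0_isModel
  smooth := by
    rintro O (hO | ⟨s, u, h, hO⟩)
    · exact regular_of_points T_le_Fr_xy (points_T hO)
    · exact regular_of_points h.isChart.T_le_Fr (h.isChart.points_A hO)
  canonical := by
    refine ⟨ωT, ?_⟩
    rintro O (hO | ⟨s, u, h, hO⟩)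
    · exact torus_canonical hO
    · exact h.isChart.canonical hO
  torus := fun O hO => Or.inl hO
  regular := by
    rw [hf]
    rintro O (hO | ⟨s, u, h, hO⟩)
    · exact le_of_mem_points hO f0_mem
    · exact le_of_mem_points hO h.isChart.f0_mem
  proper := by
    rw [hf]
    intro V hVC hV
    rcases val_cases V hV with ⟨h1, h2, h3, h4⟩ | ⟨s, u, hsu, h1, h2, h3, h4, h5⟩
    · have h : ∀ k ∈ T, k ∈ V := by
        let O : Subalgebra ℂ K := { V.toSubring with algebraMap_mem' := hVC }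
        have hO : T ≤ O := T_le (O := O) h1 h2 h3 h4
        exact fun k hk => hO hk
      exact ⟨_, Or.inl (locAt_mem_points T (centerIdeal T V h)), dominates_center T V h⟩
    · have h : ∀ k ∈ A s u, k ∈ V := by
        let O : Subalgebra ℂ K := { V.toSubring with algebraMap_mem' := hVC }
        have hO : A s u ≤ O := A_le (O := O) h1 h5 h4
        exact fun k hk => hO hk
      exact ⟨_, Or.inr ⟨s, u, hsu, locAt_mem_points (A s u) (centerIdeal (A s u) V h)⟩,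
        dominates_center (A s u) V h⟩

end Pool.Agent.K7.H1.LG
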