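import Pool.Agent.K7.H1.LG.Univ

set_option autoImplicit false

namespace Pool.Agent.K7.H1.LG

theorem prod_form {M : Type} [AddCommGroup M] [Module K M] {M' : Type} [AddCommGroup M']
    [Module K M'] (w : M → M → M') (hal : ∀ α α' β, w (α + α') β = w α β + w α' β)
    (har : ∀ α β β', w α (β + β') = w α β + w α β') (hsl : ∀ (c : K) α β, w (c • α) β = c • w α β)
    (hsr : ∀ (c : K) α β, w α (c • β) = c • w α β) (h0 : ∀ α, w α α = 0)
    (π α β : K) (dπ dα dβ : M) :
    w (π • dα + α • dπ) (π • dβ + β • dπ) =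
      π • (π • w dα dβ + β • w dα dπ + α • w dπ dβ) := by
  rw [hal, har, har, hsl, hsl, hsl, hsl, hsr, hsr, hsr, hsr, h0]
  module

theorem W_pi (π α β : K) : W (π * α) (π * β) =
    π • (π • W α β + β • W α π + α • W π β) := by
  rw [W_eq, W_eq, W_eq, W_eq, d_mul, d_mul]
  exact prod_form wd wd_add_left wd_add_right wd_smul_left wd_smul_right wd_self
    π α β (d π) (d α) (d β)

variable {f : Laurent 2} {Y : Set (Subalgebra ℂ K)} {t : ℂ} {O : Subalgebra ℂ K}

/-- The components of the fibres meet the torus. -/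
theorem component_torus (hf : toFun f = f0) (hY : IsCYCompactification f Y)
    (hO : O ∈ fibreComponents f Y t) : T ≤ O := by
  have hne : toFun f - algebraMap ℂ K t ≠ 0 := by rw [hf, ← F_eq]; exact F_ne t
  obtain ⟨⟨π, hπ, hπn, hgen⟩, hval⟩ := component_dvr hY hne hO
  obtain ⟨hOY, hfib, -⟩ := hO
  let V : ValuationSubring K := { O.toSubring with mem_or_inv_mem' := hval }
  have hV : ∀ k, k ∈ V ↔ k ∈ O := fun k => Iff.rfl
  have hf0 : f0 ∈ O := by rw [← hf]; exact hY.regular O hOY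
  rcases val_cases V ((hV _).2 hf0) with ⟨h1, h2, h3, h4⟩ | ⟨s, u, hsu, h1, h2, h3, h4, h5⟩
  · exact T_le h1 h2 h3 h4
  · exfalso
    rw [hV] at h1 h2 h3 h4 h5
    have hc := hsu.isChart
    obtain ⟨δ, h, hh, he⟩ := hc.expr
    have hhO : h ∈ O := (Algebra.adjoin_le (Set.singleton_subset_iff.2 h1) : _ ≤ O) hh
    obtain ⟨ω, hω⟩ := hY.canonical
    obtain ⟨c, hc0, hcω⟩ := generator_const hf hY hω
    -- `s` and `u - const` are divisible by the uniformiser
    obtain ⟨α, hα, hsα⟩ := hgen s h1 (by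
      rintro ⟨g, hg, hg1⟩
      apply h2
      rw [show s⁻¹ = g from (eq_inv_of_mul_eq_one_right hg1).symm]; exact hg)
    have hFO : F t ∈ O := by rw [F_eq]; exact O.sub_mem hf0 (O.algebraMap_mem t)
    obtain ⟨β₁, hβ₁, hFβ⟩ := hgen (F t) hFO (by
      rintro ⟨g, hg, hg1⟩
      apply hfib
      refine ⟨g, hg, ?_⟩
      rw [hf, ← F_eq]; exact hg1)
    set β : K := β₁ + α * (-(algebraMap ℂ K δ * u) - h * (s * u - 1)⁻¹) with hβ
    have hβO : β ∈ O := O.add_mem hβ₁ (O.mul_mem hα (O.sub_mem (O.neg_mem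
      (O.mul_mem (O.algebraMap_mem δ) h5)) (O.mul_mem hhO h4)))
    have hu : u - algebraMap ℂ K (t + δ) = π * β := by
      have e1 : F t = u + algebraMap ℂ K δ * (s * u - 1) + s * h * (s * u - 1)⁻¹ -
        algebraMap ℂ K t := by rw [F_eq, he]
      rw [hFβ] at e1
      rw [map_add, hβ, mul_add, e1, ← mul_assoc π α, ← hsα]
      ring
    have hW : W s u = π • (π • W α β + β • W α π + α • W π β) := by
      have e2 : W s u = W s (u - algebraMap ℂ K (t + δ)) := by
        rw [W_eq, W_eq, d_sub_const]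
      rw [e2, hu, hsα]
      exact W_pi π α β
    have hmem : (π • W α β + β • W α π + α • W π β) ∈ canonicalModule O := by
      refine Submodule.add_mem _ (Submodule.add_mem _ ?_ ?_) ?_
      · exact Submodule.smul_mem _ (⟨π, hπ⟩ : O) (W_mem hα hβO)
      · exact Submodule.smul_mem _ (⟨β, hβO⟩ : O) (W_mem hα hπ)
      · exact Submodule.smul_mem _ (⟨α, hα⟩ : O) (W_mem hπ hβO)
    rw [hω O hOY, Submodule.mem_span_singleton] at hmem
    obtain ⟨⟨m, hm⟩, hm'⟩ := hmem
    have e3 : (π • W α β + β • W α π + α • W π β) = m • ω := hm'.symm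
    rw [e3, hcω, smul_smul, smul_smul, mul_assoc] at hW
    have hcO : algebraMap ℂ K c ∈ O := O.algebraMap_mem c
    rcases hc.form with hz | hz
    · rw [hz] at hW
      have e4 := smul_left_injective K ωT_ne hW
      apply hπn
      refine ⟨(s * u - 1)⁻¹ * (m * algebraMap ℂ K c), O.mul_mem h4 (O.mul_mem hm hcO), ?_⟩
      have e5 : π * (m * algebraMap ℂ K c) = s * u - 1 := e4.symm
      calc π * ((s * u - 1)⁻¹ * (m * algebraMap ℂ K c))
          = (s * u - 1)⁻¹ * (π * (m * algebraMap ℂ K c)) := by ring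
        _ = 1 := by rw [e5]; exact inv_mul_cancel₀ hc.z_ne
    · rw [hz] at hW
      have hW' : (-(s * u - 1)) • ωT = (π * (m * algebraMap ℂ K c)) • ωT :=
        (neg_smul _ _).trans hW
      have e4 := smul_left_injective K ωT_ne hW'
      apply hπn
      refine ⟨-((s * u - 1)⁻¹ * (m * algebraMap ℂ K c)),
        O.neg_mem (O.mul_mem h4 (O.mul_mem hm hcO)), ?_⟩
      have e5 : π * (m * algebraMap ℂ K c) = -(s * u - 1) := e4.symm
      calc π * (-((s * u - 1)⁻¹ * (m * algebraMap ℂ K c)))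
          = -((s * u - 1)⁻¹ * (π * (m * algebraMap ℂ K c))) := by ring
        _ = 1 := by rw [e5, mul_neg, neg_neg]; exact inv_mul_cancel₀ hc.z_ne

/-- A point of `Y` at which the coordinates are units is a point of the torus. -/
theorem eq_torus_point (hY : IsCYCompactification f Y) (hO : O ∈ Y) (hTO : T ≤ O) :
    ∃ (P : Ideal T) (_ : P.IsPrime), O = locAt T P := by
  obtain ⟨C, -, -, hYC⟩ := hY.charts
  have hO' := hO
  rw [hYC] at hO'
  obtain ⟨A', -, hOA⟩ := hO'
  have := isLocalRing_of_mem_points hOA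
  obtain ⟨V, hVC, hd⟩ := exists_dominating (O := O)
  have hTV : ∀ k ∈ T, k ∈ V := fun k hk => hd.1 k (hTO hk)
  refine ⟨centerIdeal T V hTV, inferInstance, ?_⟩
  exact hY.separated V hVC O hO _ (hY.torus (locAt_mem_points T _)) hd (dominates_center T V hTV)

instance F_span_prime (t : ℂ) : (Ideal.span {(⟨F t, F_mem t⟩ : T)}).IsPrime :=
  (Ideal.span_singleton_prime (F_prime t).ne_zero).2 (F_prime t)

/-- The generic point of the closure of the fibre in the torus. -/
noncomputable def Ot (t : ℂ) : Subalgebra ℂ K := locAt T (Ideal.span {(⟨F t, F_mem t⟩ : T)})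

theorem Ot_mem_points (t : ℂ) : Ot t ∈ points T := locAt_mem_points T _

theorem Ot_onFibre (hf : toFun f = f0) (t : ℂ) : OnFibre f t (Ot t) := by
  rintro ⟨g, hg, hg1⟩
  rw [hf, ← F_eq] at hg1
  have h0 := F_ne t
  have : (F t)⁻¹ ∈ Ot t := by
    rw [show (F t)⁻¹ = g from (eq_inv_of_mul_eq_one_right hg1).symm]; exact hg
  exact not_mem_of_inv_mem (a := (⟨F t, F_mem t⟩ : T)) h0 this (Ideal.mem_span_singleton_self _)

theorem le_Ot (hf : toFun f = f0) (hY : IsCYCompactification f Y) (hO : O ∈ Y) (hTO : T ≤ O)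
    (hfib : OnFibre f t O) : O ≤ Ot t := by
  obtain ⟨P, hP, rfl⟩ := eq_torus_point hY hO hTO
  have hFP : (⟨F t, F_mem t⟩ : T) ∈ P := by
    by_contra hFP
    apply hfib
    refine ⟨_, inv_mem_locAt hFP, ?_⟩
    rw [hf, ← F_eq]
    exact mul_inv_cancel₀ (F_ne t)
  rintro k ⟨a, s, hs, hk⟩
  refine ⟨a, s, fun h => hs ?_, hk⟩
  exact (Ideal.span_singleton_le_iff_mem (I := P)).2 hFP h

theorem fibreComponents_eq (hf : toFun f = f0) (hY : IsCYCompactification f Y) (t : ℂ) :
    fibreComponents f Y t = {Ot t} := by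
  have hOtY : Ot t ∈ Y := hY.torus (Ot_mem_points t)
  have hTOt : T ≤ Ot t := le_of_mem_points (Ot_mem_points t)
  ext O
  rw [Set.mem_singleton_iff]
  constructor
  · intro hO
    have hTO := component_torus hf hY hO
    have hle := le_Ot hf hY hO.1 hTO hO.2.1
    exact (hO.2.2 _ hOtY (Ot_onFibre hf t) hle).symm
  · rintro rfl
    refine ⟨hOtY, Ot_onFibre hf t, ?_⟩
    intro O' hO' hfib hle
    exact le_antisymm (le_Ot hf hY hO' (hTOt.trans hle) hfib) hle

theorem fibres_irreducible (hf : toFun f = f0) (hY : IsCYCompactification f Y) (t : ℂ) :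
    (fibreComponents f Y t).ncard = 1 := by
  rw [fibreComponents_eq hf hY t, Set.ncard_singleton]

theorem kNumber_eq (hf : toFun f = f0) (hY : IsCYCompactification f Y) : kNumber f Y = 0 := by
  unfold kNumber
  have : (fun t : ℂ => (fibreComponents f Y t).ncard - 1) = fun _ => 0 := by
    funext t
    rw [fibres_irreducible hf hY t]
  rw [this, finsum_zero]

end Pool.Agent.K7.H1.LG
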