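import Pool.Agent.K7.H1.LG.Points

set_option autoImplicit false

namespace Pool.Agent.K7.H1.LG

open scoped KaehlerDifferential

/-- The field `ℂ(x, y)`. -/
abbrev K : Type := RatFun 2

/-- The polynomial ring `ℂ[x, y]`. -/
abbrev Pol : Type := MvPolynomial (Fin 2) ℂ

noncomputable instance : Algebra Pol K := inferInstanceAs (Algebra Pol (FractionRing Pol))

instance : IsFractionRing Pol K := inferInstanceAs (IsFractionRing Pol (FractionRing Pol))

instance : IsScalarTower ℂ Pol K := inferInstanceAs (IsScalarTower ℂ Pol (FractionRing Pol))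

/-- The first coordinate. -/
noncomputable def x : K := coord 0

/-- The second coordinate. -/
noncomputable def y : K := coord 1

theorem x_eq : x = algebraMap Pol K (MvPolynomial.X 0) := rfl

theorem y_eq : y = algebraMap Pol K (MvPolynomial.X 1) := rfl

theorem algMap_inj : Function.Injective (algebraMap Pol K) :=
  IsFractionRing.injective _ _

theorem x_ne : x ≠ 0 := by
  rw [x_eq, Ne, map_eq_zero_iff _ algMap_inj]
  exact MvPolynomial.X_ne_zero 0

theorem y_ne : y ≠ 0 := by
  rw [y_eq, Ne, map_eq_zero_iff _ algMap_inj]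
  exact MvPolynomial.X_ne_zero 1

/-- `da`. -/
noncomputable def d (a : K) : VectorField 2 → K := fun D => D a

/-- `da ∧ db`. -/
noncomputable def W (a b : K) : Form 2 := wedge ![a, b]

/-- The wedge product of two differentials. -/
noncomputable def wd (α β : VectorField 2 → K) : Form 2 :=
  fun D => α (D 0) * β (D 1) - β (D 0) * α (D 1)

theorem wedge_eq (b : Fin 2 → K) : wedge b = wd (d (b 0)) (d (b 1)) := by
  funext D
  unfold wedge wd d
  rw [Matrix.det_fin_two]
  rfl

theorem W_eq (a b : K) : W a b = wd (d a) (d b) := wedge_eq _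

theorem wd_add_left (α α' β : VectorField 2 → K) : wd (α + α') β = wd α β + wd α' β := by
  funext D; simp only [wd, Pi.add_apply]; ring

theorem wd_smul_left (c : K) (α β : VectorField 2 → K) : wd (c • α) β = c • wd α β := by
  funext D; simp only [wd, Pi.smul_apply, smul_eq_mul]; ring

theorem wd_self (α : VectorField 2 → K) : wd α α = 0 := by
  funext D; simp only [wd, Pi.zero_apply]; ring

theorem wd_add_right (α β β' : VectorField 2 → K) : wd α (β + β') = wd α β + wd α β' := by
  funext D; simp only [wd, Pi.add_apply]; ring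

theorem wd_smul_right (c : K) (α β : VectorField 2 → K) : wd α (c • β) = c • wd α β := by
  funext D; simp only [wd, Pi.smul_apply, smul_eq_mul]; ring

theorem d_mul (a b : K) : d (a * b) = a • d b + b • d a := by
  funext D; exact D.leibniz a b

theorem d_add (a b : K) : d (a + b) = d a + d b := by
  funext D; exact map_add D a b

theorem d_const (c : ℂ) : d (algebraMap ℂ K c) = 0 := by
  funext D; exact D.map_algebraMap c

theorem d_one : d 1 = 0 := by
  have := d_const 1
  rwa [map_one] at this

theorem d_sub_const (a : K) (c : ℂ) : d (a - algebraMap ℂ K c) = d a := by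
  funext D
  change D (a - algebraMap ℂ K c) = D a
  rw [map_sub, Derivation.map_algebraMap, sub_zero]

theorem d_inv {a : K} (ha : a ≠ 0) : d a⁻¹ = -(a⁻¹ * a⁻¹) • d a := by
  have h : d (a * a⁻¹) = 0 := by rw [mul_inv_cancel₀ ha, d_one]
  rw [d_mul] at h
  have h2 : a⁻¹ • (a • d a⁻¹ + a⁻¹ • d a) = 0 := by rw [h, smul_zero]
  rw [smul_add, smul_smul, smul_smul, inv_mul_cancel₀ ha, one_smul] at h2
  rw [neg_smul]
  exact eq_neg_of_add_eq_zero_left h2

theorem wd_comb (a b c e : K) (α β : VectorField 2 → K) :
    wd (a • α + b • β) (c • α + e • β) = (a * e - b * c) • wd α β := by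
  funext D; simp only [wd, Pi.add_apply, Pi.smul_apply, smul_eq_mul]; ring

/-- The `K`-basis `dx, dy` of the differentials. -/
noncomputable def basisΩ : Module.Basis (Fin 2) K Ω[K⁄ℂ] := by
  haveI : Algebra.FormallyEtale Pol K :=
    Algebra.FormallyEtale.of_isLocalization (nonZeroDivisors Pol)
  exact ((KaehlerDifferential.mvPolynomialBasis ℂ (Fin 2)).baseChange K).map
    (KaehlerDifferential.tensorKaehlerEquivOfFormallyEtale ℂ Pol K)

theorem basisΩ_apply (i : Fin 2) : basisΩ i =
    KaehlerDifferential.D ℂ K (algebraMap Pol K (MvPolynomial.X i)) := by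
  unfold basisΩ
  simp

/-- The partial derivatives. -/
noncomputable def pd (i : Fin 2) : VectorField 2 :=
  (basisΩ.coord i).compDer (KaehlerDifferential.D ℂ K)

theorem pd_apply (i j : Fin 2) : pd i (algebraMap Pol K (MvPolynomial.X j)) =
    if j = i then 1 else 0 := by
  change basisΩ.coord i (KaehlerDifferential.D ℂ K (algebraMap Pol K (MvPolynomial.X j))) = _
  rw [← basisΩ_apply, Module.Basis.coord_apply, Module.Basis.repr_self, Finsupp.single_apply]

theorem W_xy_ne : W x y ≠ 0 := by
  intro h
  have h2 := congrFun h pd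
  rw [W_eq] at h2
  unfold wd d at h2
  rw [x_eq, y_eq, pd_apply, pd_apply, pd_apply, pd_apply] at h2
  simp at h2

end Pool.Agent.K7.H1.LG
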