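import Mathlib

set_option autoImplicit false

namespace Pool.Agent.K7.H1.LG

open Polynomial

/-- `(x² + x) y² + (x² - t x) y + 1` as a polynomial in `y` over `ℂ[x]`. -/
noncomputable def G (t : ℂ) : ℂ[X][X] :=
  C (X ^ 2 + X) * X ^ 2 + C (X ^ 2 - C t * X) * X + C 1

theorem lead_ne : (X ^ 2 + X : ℂ[X]) ≠ 0 := by
  intro h
  have := congrArg (Polynomial.eval 1) h
  simp at this

theorem quad_coeff (a b c : ℂ[X]) : (C a * X ^ 2 + C b * X + C c).coeff 0 = c ∧
    (C a * X ^ 2 + C b * X + C c).coeff 1 = b ∧ (C a * X ^ 2 + C b * X + C c).coeff 2 = a := by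
  refine ⟨?_, ?_, ?_⟩ <;> simp [coeff_X, coeff_C]

theorem G_natDegree (t : ℂ) : (G t).natDegree = 2 := natDegree_quadratic lead_ne

theorem G_coeff0 (t : ℂ) : (G t).coeff 0 = 1 := (quad_coeff _ _ _).1

theorem G_coeff1 (t : ℂ) : (G t).coeff 1 = X ^ 2 - C t * X := (quad_coeff _ _ _).2.1

theorem G_coeff2 (t : ℂ) : (G t).coeff 2 = X ^ 2 + X := (quad_coeff _ _ _).2.2

theorem G_ne (t : ℂ) : G t ≠ 0 := by
  intro h
  have := G_natDegree t
  rw [h] at this
  simp at this

theorem unit_of_deg0 {t : ℂ} {A B : ℂ[X][X]} (h : G t = A * B) (hA : A.natDegree = 0) :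
    IsUnit A := by
  obtain ⟨a, ha⟩ := natDegree_eq_zero.1 hA
  have h0 := congrArg (fun p => Polynomial.coeff p 0) h
  simp only [G_coeff0, mul_coeff_zero] at h0
  rw [← ha, coeff_C_zero] at h0
  rw [← ha]
  exact (IsUnit.of_mul_eq_one _ h0.symm).map C

/-- The key computation. -/
theorem no_split {a b : ℂ[X]} {α β t : ℂ} (hα : α ≠ 0) (hβ : β ≠ 0)
    (h2 : a * b = X ^ 2 + X) (h1 : C β * a + C α * b = X ^ 2 - C t * X) : False := by
  have ha0 : a ≠ 0 := by rintro rfl; rw [zero_mul] at h2; exact lead_ne h2.symm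
  have hb0 : b ≠ 0 := by rintro rfl; rw [mul_zero] at h2; exact lead_ne h2.symm
  have hdeg : a.natDegree + b.natDegree = 2 := by
    rw [← natDegree_mul ha0 hb0, h2]
    have : (X ^ 2 + X : ℂ[X]) = C 1 * X ^ 2 + C 1 * X + C 0 := by simp
    rw [this]
    exact natDegree_quadratic one_ne_zero
  have hdeg1 : (C β * a + C α * b).natDegree = 2 := by
    rw [h1]
    have : (X ^ 2 - C t * X : ℂ[X]) = C 1 * X ^ 2 + C (-t) * X + C 0 := by
      rw [C_neg]; simp [sub_eq_add_neg]
    rw [this]
    exact natDegree_quadratic one_ne_zero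
  have hle : (C β * a + C α * b).natDegree ≤ max a.natDegree b.natDegree := by
    refine (natDegree_add_le _ _).trans (max_le_max ?_ ?_)
    · exact natDegree_C_mul_le _ _
    · exact natDegree_C_mul_le _ _
  rw [hdeg1] at hle
  have he2 := congrArg (Polynomial.eval 0) h2
  have he1 := congrArg (Polynomial.eval 0) h1
  simp only [eval_mul, eval_add, eval_pow, eval_X, eval_C, eval_sub] at he1 he2
  norm_num at he1 he2
  rcases le_max_iff.1 hle with h | h
  · -- `b` is constant
    have hb : b.natDegree = 0 := by omega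
    obtain ⟨c, rfl⟩ := natDegree_eq_zero.1 hb
    have hc : c ≠ 0 := by rintro rfl; simp at hb0
    rw [eval_C] at he1 he2
    have : eval 0 a = 0 := he2.resolve_right hc
    rw [this, mul_zero, zero_add] at he1
    exact (mul_ne_zero hα hc) he1
  · have ha : a.natDegree = 0 := by omega
    obtain ⟨c, rfl⟩ := natDegree_eq_zero.1 ha
    have hc : c ≠ 0 := by rintro rfl; simp at ha0
    rw [eval_C] at he1 he2
    have : eval 0 b = 0 := he2.resolve_left hc
    rw [this, mul_zero, add_zero] at he1
    exact (mul_ne_zero hβ hc) he1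

theorem G_irreducible (t : ℂ) : Irreducible (G t) := by
  refine ⟨?_, ?_⟩
  · intro hu
    have := natDegree_eq_zero_of_isUnit hu
    rw [G_natDegree] at this
    omega
  · intro A B h
    have hA0 : A ≠ 0 := by rintro rfl; rw [zero_mul] at h; exact G_ne t h
    have hB0 : B ≠ 0 := by rintro rfl; rw [mul_zero] at h; exact G_ne t h
    have hdeg : A.natDegree + B.natDegree = 2 := by
      rw [← natDegree_mul hA0 hB0, ← h, G_natDegree]
    rcases Nat.lt_or_ge 0 A.natDegree with hA | hA
    · rcases Nat.lt_or_ge 0 B.natDegree with hB | hB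
      · exfalso
        have hA1 : A.natDegree = 1 := by omega
        have hB1 : B.natDegree = 1 := by omega
        have c0 := congrArg (fun p => Polynomial.coeff p 0) h
        have c1 := congrArg (fun p => Polynomial.coeff p 1) h
        have c2 := congrArg (fun p => Polynomial.coeff p 2) h
        have hmul2 : (A * B).coeff 2 = A.coeff 1 * B.coeff 1 := by
          have := coeff_mul_degree_add_degree A B
          rw [hA1, hB1] at this
          rw [this, leadingCoeff, leadingCoeff, hA1, hB1]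
        simp only [G_coeff0, G_coeff1, G_coeff2, mul_coeff_zero, mul_coeff_one, hmul2] at c0 c1 c2
        have hu : IsUnit (A.coeff 0) := IsUnit.of_mul_eq_one _ c0.symm
        have hv : IsUnit (B.coeff 0) := IsUnit.of_mul_eq_one _ (by rw [mul_comm]; exact c0.symm)
        obtain ⟨α, hα, hα'⟩ := Polynomial.isUnit_iff.1 hu
        obtain ⟨β, hβ, hβ'⟩ := Polynomial.isUnit_iff.1 hv
        refine no_split (a := A.coeff 1) (b := B.coeff 1) (t := t) hα.ne_zero hβ.ne_zero c2.symm ?_
        rw [hα', hβ', c1]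
        ring
      · right
        refine unit_of_deg0 (t := t) (B := A) ?_ (by omega)
        rw [mul_comm]; exact h
    · left
      exact unit_of_deg0 h (by omega)

/-- `x² y + x y² + x² y² + 1 - t x y`. -/
noncomputable def Fp (t : ℂ) : MvPolynomial (Fin 2) ℂ :=
  (MvPolynomial.X 0 ^ 2 + MvPolynomial.X 0) * MvPolynomial.X 1 ^ 2 +
    (MvPolynomial.X 0 ^ 2 - MvPolynomial.C t * MvPolynomial.X 0) * MvPolynomial.X 1 + 1

theorem Fp_prime (t : ℂ) : Prime (Fp t) := by
  have h := (G_irreducible t).prime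
  have h2 := (MulEquiv.prime_iff (Polynomial.Bivariate.equivMvPolynomial ℂ) (p := G t)).2 h
  have : (Polynomial.Bivariate.equivMvPolynomial ℂ) (G t) = Fp t := by
    unfold G Fp
    simp
  rw [← this]
  exact h2

end Pool.Agent.K7.H1.LG
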