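import Pool.Agent.K7.H1.LG.Ring

set_option autoImplicit false

namespace Pool.Agent.K7.H1.LG

/-- Points of a localisation `A = B[1/e]` are points of `B`. -/
theorem points_of_loc {A B : Subalgebra ℂ K} (hBA : B ≤ A) {e : K} (he : e ∈ B) (he0 : e ≠ 0)
    (hei : e⁻¹ ∈ A) (h : ∀ a ∈ A, ∃ m : ℕ, a * e ^ m ∈ B) : points A ⊆ points B := by
  intro O hO
  obtain ⟨P, hP, rfl⟩ := mem_points_iff.1 hO
  let ι : B →+* A := (Subalgebra.inclusion hBA).toRingHom
  have hePn : ∀ m : ℕ, (⟨e, hBA he⟩ : A) ^ m ∉ P := by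
    intro m hm
    have heP := hP.mem_of_pow_mem m hm
    apply hP.ne_top
    rw [Ideal.eq_top_iff_one]
    have : (1 : A) = ⟨e, hBA he⟩ * ⟨e⁻¹, hei⟩ := Subtype.ext (mul_inv_cancel₀ he0).symm
    rw [this]
    exact P.mul_mem_right _ heP
  refine mem_points_iff.2 ⟨P.comap ι, inferInstance, ?_⟩
  ext k
  constructor
  · rintro ⟨a, s, hs, hk⟩
    obtain ⟨m, hm⟩ := h a a.2
    obtain ⟨l, hl⟩ := h s s.2
    refine ⟨⟨a * e ^ m * e ^ l, B.mul_mem hm (B.pow_mem he l)⟩,
      ⟨s * e ^ l * e ^ m, B.mul_mem hl (B.pow_mem he m)⟩, ?_, ?_⟩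
    · intro hmem
      have : ι ⟨s * e ^ l * e ^ m, B.mul_mem hl (B.pow_mem he m)⟩ =
          s * (⟨e, hBA he⟩ : A) ^ l * (⟨e, hBA he⟩ : A) ^ m := by
        apply Subtype.ext
        rfl
      rw [Ideal.mem_comap, this] at hmem
      rcases hP.mem_or_mem hmem with h1 | h1
      · rcases hP.mem_or_mem h1 with h2 | h2
        · exact hs h2
        · exact hePn l h2
      · exact hePn m h1
    · change k * ((s : K) * e ^ l * e ^ m) = (a : K) * e ^ m * e ^ l
      rw [← hk]; ring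
  · rintro ⟨a, s, hs, hk⟩
    exact ⟨ι a, ι s, hs, hk⟩

/-- The chart ring `ℂ[s, u, 1/(su - 1)]`. -/
noncomputable abbrev A (s u : K) : Subalgebra ℂ K := Algebra.adjoin ℂ {s, u, (s * u - 1)⁻¹}

theorem s_memA (s u : K) : s ∈ A s u := Algebra.subset_adjoin (by simp)

theorem u_memA (s u : K) : u ∈ A s u := Algebra.subset_adjoin (by simp)

theorem zi_memA (s u : K) : (s * u - 1)⁻¹ ∈ A s u := Algebra.subset_adjoin (by simp)

theorem z_memA (s u : K) : s * u - 1 ∈ A s u :=
  (A s u).sub_mem ((A s u).mul_mem (s_memA s u) (u_memA s u)) (A s u).one_mem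

theorem B_le_A (s u : K) : B s u ≤ A s u := by
  refine Algebra.adjoin_le ?_
  rintro _ ⟨i, rfl⟩
  fin_cases i
  · exact s_memA s u
  · exact u_memA s u

theorem A_le {s u : K} {O : Subalgebra ℂ K} (h1 : s ∈ O) (h2 : u ∈ O)
    (h3 : (s * u - 1)⁻¹ ∈ O) : A s u ≤ O := by
  refine Algebra.adjoin_le ?_
  rintro k (rfl | rfl | rfl)
  · exact h1
  · exact h2
  · exact h3

theorem IsChart.f0_mem {s u : K} (h : IsChart s u) : f0 ∈ A s u := by
  obtain ⟨δ, k, hk, e⟩ := h.expr
  rw [e]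
  have hk' : k ∈ A s u := by
    have : Algebra.adjoin ℂ {s} ≤ A s u :=
      Algebra.adjoin_le (Set.singleton_subset_iff.2 (s_memA s u))
    exact this hk
  exact (A s u).add_mem ((A s u).add_mem (u_memA s u)
    ((A s u).mul_mem ((A s u).algebraMap_mem δ) (z_memA s u)))
    ((A s u).mul_mem ((A s u).mul_mem (s_memA s u) hk') (zi_memA s u))

theorem IsChart.points_A {s u : K} (h : IsChart s u) : points (A s u) ⊆ points (B s u) := by
  have hz : s * u - 1 ∈ B s u := Subalgebra.sub_mem _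
    (Subalgebra.mul_mem _ (s_memB s u) (u_memB s u)) (Subalgebra.one_mem _)
  refine points_of_loc (B_le_A s u) hz h.z_ne (zi_memA s u) ?_
  intro a ha
  induction ha using Algebra.adjoin_induction with
  | mem a ha =>
    rcases ha with rfl | rfl | rfl
    · exact ⟨0, by rw [pow_zero, mul_one]; exact s_memB _ u⟩
    · exact ⟨0, by rw [pow_zero, mul_one]; exact u_memB s _⟩
    · exact ⟨1, by rw [pow_one, inv_mul_cancel₀ h.z_ne]; exact (B s u).one_mem⟩
  | algebraMap r => exact ⟨0, by rw [pow_zero, mul_one]; exact (B s u).algebraMap_mem r⟩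
  | add a b _ _ ha hb =>
    obtain ⟨m, hm⟩ := ha
    obtain ⟨l, hl⟩ := hb
    refine ⟨m + l, ?_⟩
    have : (a + b) * (s * u - 1) ^ (m + l) =
      a * (s * u - 1) ^ m * (s * u - 1) ^ l + b * (s * u - 1) ^ l * (s * u - 1) ^ m := by ring
    rw [this]
    exact (B s u).add_mem ((B s u).mul_mem hm ((B s u).pow_mem hz l))
      ((B s u).mul_mem hl ((B s u).pow_mem hz m))
  | mul a b _ _ ha hb =>
    obtain ⟨m, hm⟩ := ha
    obtain ⟨l, hl⟩ := hb
    refine ⟨m + l, ?_⟩
    have : (a * b) * (s * u - 1) ^ (m + l) =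
      (a * (s * u - 1) ^ m) * (b * (s * u - 1) ^ l) := by ring
    rw [this]
    exact (B s u).mul_mem hm hl

theorem regular_of_points {s u : K} (h : T ≤ Fr (B s u)) {O : Subalgebra ℂ K}
    (hO : O ∈ points (B s u)) : IsRegularLocalRing O := by
  obtain ⟨P, hP, rfl⟩ := mem_points_iff.1 hO
  have := regular_B h
  exact regular_locAt _ P

/-- Multiplying the generator by a unit does not change the span. -/
theorem span_unit {O : Subalgebra ℂ K} {c : K} (hc : c ∈ O) (hci : c⁻¹ ∈ O) (hc0 : c ≠ 0)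
    (ω : Form 2) : Submodule.span O {c • ω} = Submodule.span O {ω} := by
  apply le_antisymm
  · rw [Submodule.span_le, Set.singleton_subset_iff]
    exact Submodule.mem_span_singleton.2 ⟨⟨c, hc⟩, rfl⟩
  · rw [Submodule.span_le, Set.singleton_subset_iff]
    refine Submodule.mem_span_singleton.2 ⟨⟨c⁻¹, hci⟩, ?_⟩
    change c⁻¹ • (c • ω) = ω
    rw [smul_smul, inv_mul_cancel₀ hc0, one_smul]

theorem IsChart.canonical {s u : K} (h : IsChart s u) {O : Subalgebra ℂ K}
    (hO : O ∈ points (A s u)) : canonicalModule O = Submodule.span O {ωT} := by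
  have hle := le_of_mem_points hO
  obtain ⟨P, hP, rfl⟩ := mem_points_iff.1 hO
  have hz := hle (z_memA s u)
  have hzi := hle (zi_memA s u)
  have h1 : canonicalModule (locAt (A s u) P) =
      Submodule.span (locAt (A s u) P) {W s u} := by
    refine canonical_eq (hle (s_memA s u)) (hle (u_memA s u)) ?_
    have hs : d s ∈ N (locAt (A s u) P) s u :=
      mem_N.2 ⟨1, Subalgebra.one_mem _, 0, Subalgebra.zero_mem _, by simp⟩
    have hu : d u ∈ N (locAt (A s u) P) s u :=
      mem_N.2 ⟨0, Subalgebra.zero_mem _, 1, Subalgebra.one_mem _, by simp⟩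
    rintro k (rfl | rfl | rfl)
    · exact hs
    · exact hu
    · refine mem_N.2 ⟨-((s * u - 1)⁻¹ * (s * u - 1)⁻¹) * u, ?_,
        -((s * u - 1)⁻¹ * (s * u - 1)⁻¹) * s, ?_, ?_⟩
      · exact Subalgebra.mul_mem _ (Subalgebra.neg_mem _ (Subalgebra.mul_mem _ hzi hzi))
          (hle (u_memA s u))
      · exact Subalgebra.mul_mem _ (Subalgebra.neg_mem _ (Subalgebra.mul_mem _ hzi hzi))
          (hle (s_memA s u))
      · have hd : d (s * u - 1) = u • d s + s • d u := by
          have := d_sub_const (s * u) 1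
          rw [map_one] at this
          rw [this, d_mul]
          abel
        rw [d_inv h.z_ne, hd]
        module
  rw [h1]
  rcases h.form with hf | hf
  · rw [hf]; exact span_unit hz hzi h.z_ne ωT
  · have hneg : W s u = (-(s * u - 1)) • ωT := hf.trans (neg_smul _ _).symm
    rw [hneg]
    refine span_unit (Subalgebra.neg_mem _ hz) ?_ (neg_ne_zero.2 h.z_ne) ωT
    rw [inv_neg]; exact Subalgebra.neg_mem _ hzi

end Pool.Agent.K7.H1.LG
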