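import Pool.Agent.K7.H1.LG.Defs

set_option autoImplicit false

namespace Pool.Agent.K7.H1.LG

variable {n : ℕ}

/-- The localisation of `A` at the prime `P`, inside the field. -/
def locAt (A : Subalgebra ℂ (RatFun n)) (P : Ideal A) [hP : P.IsPrime] :
    Subalgebra ℂ (RatFun n) where
  carrier := {x | ∃ a s : A, s ∉ P ∧ x * (s : RatFun n) = (a : RatFun n)}
  mul_mem' := by
    rintro x y ⟨a, s, hs, h⟩ ⟨b, t, ht, h'⟩
    refine ⟨a * b, s * t, fun h => (hP.mem_or_mem h).elim hs ht, ?_⟩
    push_cast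
    rw [← h, ← h']; ring
  add_mem' := by
    rintro x y ⟨a, s, hs, h⟩ ⟨b, t, ht, h'⟩
    refine ⟨a * t + b * s, s * t, fun h => (hP.mem_or_mem h).elim hs ht, ?_⟩
    push_cast
    rw [← h, ← h']; ring
  algebraMap_mem' c := by
    refine ⟨algebraMap ℂ A c, 1, fun h => hP.ne_top ((Ideal.eq_top_iff_one _).2 h), ?_⟩
    simp

theorem mem_locAt {A : Subalgebra ℂ (RatFun n)} {P : Ideal A} [hP : P.IsPrime] {x : RatFun n} :
    x ∈ locAt A P ↔ ∃ a s : A, s ∉ P ∧ x * (s : RatFun n) = (a : RatFun n) := Iff.rfl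

theorem mem_points_iff {A O : Subalgebra ℂ (RatFun n)} :
    O ∈ points A ↔ ∃ (P : Ideal A) (_ : P.IsPrime), O = locAt A P := by
  constructor
  · rintro ⟨P, hP, h⟩
    exact ⟨P, hP, SetLike.ext h⟩
  · rintro ⟨P, hP, rfl⟩
    exact ⟨P, hP, fun x => Iff.rfl⟩

theorem locAt_mem_points (A : Subalgebra ℂ (RatFun n)) (P : Ideal A) [hP : P.IsPrime] :
    locAt A P ∈ points A := mem_points_iff.2 ⟨P, hP, rfl⟩

theorem isPrime_elim {A : Subalgebra ℂ (RatFun n)} {P : Ideal A} (hP : P.IsPrime)
    {a b : A} (ha : a ∉ P) (hb : b ∉ P) : a * b ∉ P := fun h => (hP.mem_or_mem h).elim ha hb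

theorem le_locAt (A : Subalgebra ℂ (RatFun n)) (P : Ideal A) [hP : P.IsPrime] :
    A ≤ locAt A P := fun x hx =>
  ⟨⟨x, hx⟩, 1, fun h => hP.ne_top ((Ideal.eq_top_iff_one _).2 h), by simp⟩

theorem le_of_mem_points {A O : Subalgebra ℂ (RatFun n)} (h : O ∈ points A) : A ≤ O := by
  obtain ⟨P, hP, rfl⟩ := mem_points_iff.1 h
  exact le_locAt A P

theorem inv_mem_locAt {A : Subalgebra ℂ (RatFun n)} {P : Ideal A} [hP : P.IsPrime] {a : A}
    (ha : a ∉ P) : (a : RatFun n)⁻¹ ∈ locAt A P := by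
  refine ⟨1, a, ha, ?_⟩
  have : (a : RatFun n) ≠ 0 := by
    intro h
    apply ha
    have : a = 0 := Subtype.ext h
    rw [this]; exact P.zero_mem
  simp [this]

theorem not_mem_of_inv_mem {A : Subalgebra ℂ (RatFun n)} {P : Ideal A} [hP : P.IsPrime] {a : A}
    (h0 : (a : RatFun n) ≠ 0) (ha : (a : RatFun n)⁻¹ ∈ locAt A P) : a ∉ P := by
  obtain ⟨b, s, hs, h⟩ := ha
  intro haP
  apply hs
  have : s = a * b := by
    apply Subtype.ext
    push_cast
    rw [← h]
    field_simp
  rw [this]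
  exact P.mul_mem_right _ haP

/-- Elements of `locAt` as fractions with denominators which are units. -/
theorem exists_frac {A : Subalgebra ℂ (RatFun n)} {P : Ideal A} [hP : P.IsPrime] {x : RatFun n}
    (hx : x ∈ locAt A P) : ∃ a s : A, s ∉ P ∧ (s : RatFun n) ≠ 0 ∧ x = a * (s : RatFun n)⁻¹ := by
  obtain ⟨a, s, hs, h⟩ := hx
  have h0 : (s : RatFun n) ≠ 0 := by
    intro h
    apply hs
    have : s = 0 := Subtype.ext h
    rw [this]; exact P.zero_mem
  exact ⟨a, s, hs, h0, by rw [← h]; field_simp⟩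

theorem isLocalization_locAt (A : Subalgebra ℂ (RatFun n)) (P : Ideal A) [hP : P.IsPrime] :
    @IsLocalization.AtPrime A _ (locAt A P) _
      (Subalgebra.inclusion (le_locAt A P)).toRingHom.toAlgebra P hP := by
  letI := (Subalgebra.inclusion (le_locAt A P)).toRingHom.toAlgebra
  have hmap : ∀ a : A, ((algebraMap A (locAt A P) a : locAt A P) : RatFun n) = a := fun a => rfl
  refine ⟨?_, ?_, ?_⟩
  · rintro ⟨s, hs⟩
    have hs' : s ∉ P := hs
    have h0 : (s : RatFun n) ≠ 0 := by
      intro h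
      apply hs'
      have : s = 0 := Subtype.ext h
      rw [this]; exact P.zero_mem
    refine IsUnit.of_mul_eq_one ⟨(s : RatFun n)⁻¹, inv_mem_locAt hs'⟩ ?_
    apply Subtype.ext
    push_cast
    rw [hmap]
    exact mul_inv_cancel₀ h0
  · rintro ⟨x, a, s, hs, h⟩
    exact ⟨(a, ⟨s, hs⟩), Subtype.ext h⟩
  · intro a b hab
    refine ⟨1, ?_⟩
    have : (a : RatFun n) = b := congrArg (fun z : locAt A P => (z : RatFun n)) hab
    rw [Subtype.ext this]

theorem regular_locAt (A : Subalgebra ℂ (RatFun n)) [IsRegularRing A] (P : Ideal A)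
    [hP : P.IsPrime] : IsRegularLocalRing (locAt A P) := by
  let := (Subalgebra.inclusion (le_locAt A P)).toRingHom.toAlgebra
  have := isLocalization_locAt A P
  have := IsRegularRing.isRegularLocalRing_localization P
  exact IsRegularLocalRing.of_ringEquiv (R := Localization.AtPrime P)
    (IsLocalization.algEquiv P.primeCompl (Localization.AtPrime P) (locAt A P)).toRingEquiv

theorem isLocalRing_of_mem_points {A O : Subalgebra ℂ (RatFun n)} (h : O ∈ points A) :
    IsLocalRing O := by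
  obtain ⟨P, hP, rfl⟩ := mem_points_iff.1 h
  let := (Subalgebra.inclusion (le_locAt A P)).toRingHom.toAlgebra
  have := isLocalization_locAt A P
  exact IsLocalization.AtPrime.isLocalRing (locAt A P) P

/-- The center of a valuation ring on an affine model. -/
noncomputable def centerIdeal (A : Subalgebra ℂ (RatFun n)) (V : ValuationSubring (RatFun n))
    (h : ∀ x ∈ A, x ∈ V) : Ideal A :=
  (IsLocalRing.maximalIdeal V).comap
    ({ toFun := fun a => (⟨a, h a a.2⟩ : V)
       map_one' := rfl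
       map_mul' := fun _ _ => rfl
       map_zero' := rfl
       map_add' := fun _ _ => rfl } : A →+* V)

instance (A : Subalgebra ℂ (RatFun n)) (V : ValuationSubring (RatFun n))
    (h : ∀ x ∈ A, x ∈ V) : (centerIdeal A V h).IsPrime := by
  unfold centerIdeal
  infer_instance

theorem mem_centerIdeal {A : Subalgebra ℂ (RatFun n)} {V : ValuationSubring (RatFun n)}
    {h : ∀ x ∈ A, x ∈ V} {a : A} :
    a ∈ centerIdeal A V h ↔ ((a : RatFun n) = 0 ∨ (a : RatFun n)⁻¹ ∉ V) := by
  unfold centerIdeal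
  rw [Ideal.mem_comap, IsLocalRing.mem_maximalIdeal, mem_nonunits_iff]
  constructor
  · intro hu
    by_contra hcon
    push Not at hcon
    apply hu
    refine IsUnit.of_mul_eq_one ⟨(a : RatFun n)⁻¹, hcon.2⟩ ?_
    apply Subtype.ext
    exact mul_inv_cancel₀ hcon.1
  · intro hor hu
    obtain ⟨b, hb⟩ := hu.exists_right_inv
    have hb' : (a : RatFun n) * (b : RatFun n) = 1 := congrArg Subtype.val hb
    rcases hor with h0 | hinv
    · rw [h0, zero_mul] at hb'
      exact zero_ne_one hb'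
    · apply hinv
      rw [show (a : RatFun n)⁻¹ = (b : RatFun n) from (eq_inv_of_mul_eq_one_right hb').symm]
      exact b.2

theorem not_mem_centerIdeal {A : Subalgebra ℂ (RatFun n)} {V : ValuationSubring (RatFun n)}
    {h : ∀ x ∈ A, x ∈ V} {a : A} :
    a ∉ centerIdeal A V h ↔ ((a : RatFun n) ≠ 0 ∧ (a : RatFun n)⁻¹ ∈ V) := by
  rw [mem_centerIdeal]; push Not; rfl

theorem dominates_center (A : Subalgebra ℂ (RatFun n)) (V : ValuationSubring (RatFun n))
    (h : ∀ x ∈ A, x ∈ V) : Dominates V (locAt A (centerIdeal A V h)) := by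
  constructor
  · intro x hx
    obtain ⟨a, s, hs, h0, rfl⟩ := exists_frac hx
    exact mul_mem (h a a.2) (not_mem_centerIdeal.1 hs).2
  · intro x hx hxi
    obtain ⟨a, s, hs, h0, rfl⟩ := exists_frac hx
    by_cases ha : (a : RatFun n) = 0
    · rw [ha]; simp [(locAt A (centerIdeal A V h)).zero_mem]
    · have : a ∉ centerIdeal A V h := by
        rw [not_mem_centerIdeal]
        refine ⟨ha, ?_⟩
        have h1 : (a : RatFun n)⁻¹ = ((a : RatFun n) * (s : RatFun n)⁻¹)⁻¹ * (s : RatFun n)⁻¹ := by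
          field_simp
        rw [h1]
        exact mul_mem hxi (not_mem_centerIdeal.1 hs).2
      refine ⟨s, a, this, ?_⟩
      field_simp

theorem eq_center_of_dominates {A O : Subalgebra ℂ (RatFun n)} {V : ValuationSubring (RatFun n)}
    (hO : O ∈ points A) (hV : Dominates V O) :
    ∃ h : ∀ x ∈ A, x ∈ V, O = locAt A (centerIdeal A V h) := by
  obtain ⟨P, hP, rfl⟩ := mem_points_iff.1 hO
  have h : ∀ x ∈ A, x ∈ V := fun x hx => hV.1 x (le_locAt A P hx)
  refine ⟨h, ?_⟩
  have hPeq : P = centerIdeal A V h := by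
    ext a
    rw [mem_centerIdeal]
    constructor
    · intro ha
      by_contra hcon
      push Not at hcon
      exact not_mem_of_inv_mem hcon.1 (hV.2 _ (le_locAt A P a.2) hcon.2) ha
    · rintro (h0 | hinv)
      · have : a = 0 := Subtype.ext h0
        rw [this]; exact P.zero_mem
      · by_contra haP
        exact hinv (hV.1 _ (inv_mem_locAt haP))
  subst hPeq
  rfl

theorem exists_dominating {O : Subalgebra ℂ (RatFun n)} [hl : IsLocalRing O] :
    ∃ V : ValuationSubring (RatFun n), OverC V ∧ Dominates V O := by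
  have : IsLocalRing O.toSubring := hl
  obtain ⟨V, hV⟩ := LocalSubring.exists_le_valuationSubring (K := RatFun n) ⟨O.toSubring⟩
  obtain ⟨hle, hloc⟩ := hV
  refine ⟨V, ?_, ?_, ?_⟩
  · intro c
    exact hle (O.algebraMap_mem c)
  · intro x hx
    exact hle hx
  · intro x hx hxi
    by_cases h0 : x = 0
    · rw [h0, inv_zero]; exact O.zero_mem
    · have hu : IsUnit (Subring.inclusion hle ⟨x, hx⟩) := by
        refine IsUnit.of_mul_eq_one ⟨x⁻¹, hxi⟩ ?_
        apply Subtype.ext
        exact mul_inv_cancel₀ h0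
      have := hloc.map_nonunit ⟨x, hx⟩ hu
      obtain ⟨b, hb⟩ := this.exists_right_inv
      have hb' : x * (b : RatFun n) = 1 := congrArg Subtype.val hb
      rw [show x⁻¹ = (b : RatFun n) from (eq_inv_of_mul_eq_one_right hb').symm]
      exact b.2

end Pool.Agent.K7.H1.LG
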