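import Pool.Agent.K7.H1.LG.Cases

set_option autoImplicit false

namespace Pool.Agent.K7.H1.LG

/-- The fractions of elements of `B`. -/
noncomputable def Fr (B : Subalgebra ℂ K) : Subalgebra ℂ K where
  carrier := {k | ∃ a ∈ B, ∃ b ∈ B, b ≠ 0 ∧ k = a / b}
  mul_mem' := by
    rintro k l ⟨a, ha, b, hb, hb0, rfl⟩ ⟨c, hc, e, he, he0, rfl⟩
    exact ⟨a * c, B.mul_mem ha hc, b * e, B.mul_mem hb he, mul_ne_zero hb0 he0, by
      rw [div_mul_div_comm]⟩
  add_mem' := by
    rintro k l ⟨a, ha, b, hb, hb0, rfl⟩ ⟨c, hc, e, he, he0, rfl⟩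
    exact ⟨a * e + b * c, B.add_mem (B.mul_mem ha he) (B.mul_mem hb hc), b * e, B.mul_mem hb he,
      mul_ne_zero hb0 he0, by rw [div_add_div _ _ hb0 he0]⟩
  algebraMap_mem' c := ⟨algebraMap ℂ K c, B.algebraMap_mem c, 1, B.one_mem, one_ne_zero, by simp⟩

theorem le_Fr (B : Subalgebra ℂ K) : B ≤ Fr B := fun a ha =>
  ⟨a, ha, 1, B.one_mem, one_ne_zero, by simp⟩

theorem Fr_inv (B : Subalgebra ℂ K) {k : K} (hk : k ∈ Fr B) : k⁻¹ ∈ Fr B := by
  obtain ⟨a, ha, b, hb, hb0, rfl⟩ := hk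
  by_cases ha0 : a = 0
  · rw [ha0, zero_div, inv_zero]; exact (Fr B).zero_mem
  · exact ⟨b, hb, a, ha, ha0, by rw [inv_div]⟩

theorem frac_of {B : Subalgebra ℂ K} (hT : T ≤ Fr B) (k : K) :
    ∃ a ∈ B, ∃ b ∈ B, b ≠ 0 ∧ k = a / b := by
  obtain ⟨P, Q, hQ, rfl⟩ := IsFractionRing.div_surjective (A := Pol) k
  have h : algebraMap Pol K P / algebraMap Pol K Q ∈ Fr B := by
    rw [div_eq_mul_inv]
    exact (Fr B).mul_mem (hT (pol_mem P)) (Fr_inv B (hT (pol_mem Q)))
  exact h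

theorem trdeg_K : Cardinal.mk (Fin 2) = Algebra.trdeg ℂ K := by
  have h1 := (IsTranscendenceBasis.mvPolynomial (Fin 2) ℂ)
  have : Algebra.IsAlgebraic Pol K := IsLocalization.isAlgebraic K (nonZeroDivisors Pol)
  have h2 := h1.algebraMap_comp (A := K)
  exact h2.cardinalMk_eq_trdeg

/-- The polynomial ring of a pair of elements generating the field. -/
noncomputable abbrev B (s u : K) : Subalgebra ℂ K := Algebra.adjoin ℂ (Set.range ![s, u])

theorem algInd {s u : K} (h : T ≤ Fr (B s u)) : AlgebraicIndependent ℂ ![s, u] := by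
  have hfr : IsFractionRing (B s u) K := by
    refine IsFractionRing.of_field _ _ fun z => ?_
    obtain ⟨a, ha, b, hb, -, rfl⟩ := frac_of h z
    exact ⟨⟨a, ha⟩, ⟨b, hb⟩, rfl⟩
  have : Algebra.IsAlgebraic (Algebra.adjoin ℂ (Set.range ![s, u])) K :=
    IsLocalization.isAlgebraic _ (nonZeroDivisors (B s u))
  exact (Algebra.IsAlgebraic.isTranscendenceBasis_of_le_trdeg_of_finite ℂ ![s, u] trdeg_K.le).1

theorem regular_B {s u : K} (h : T ≤ Fr (B s u)) : IsRegularRing (B s u) :=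
  IsRegularRing.of_ringEquiv (algInd h).aevalEquiv.toRingEquiv

theorem s_memB (s u : K) : s ∈ B s u := Algebra.subset_adjoin ⟨0, rfl⟩

theorem u_memB (s u : K) : u ∈ B s u := Algebra.subset_adjoin ⟨1, rfl⟩

theorem s_prime {s u : K} (h : T ≤ Fr (B s u)) : Prime (⟨s, s_memB s u⟩ : B s u) := by
  have h1 := (MulEquiv.prime_iff (algInd h).aevalEquiv (p := MvPolynomial.X 0)).2
    MvPolynomial.X_prime
  have h2 : (algInd h).aevalEquiv (MvPolynomial.X 0) = (⟨s, s_memB s u⟩ : B s u) := by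
    apply Subtype.ext
    have := (algInd h).algebraMap_aevalEquiv (MvPolynomial.X 0)
    rw [MvPolynomial.aeval_X] at this
    exact this
  rwa [h2] at h1

theorem IsChart.T_le_Fr {s u : K} (h : IsChart s u) : T ≤ Fr (B s u) := by
  have hs := s_memB s u
  have hu := u_memB s u
  have hz : s * u - 1 ∈ B s u := Subalgebra.sub_mem _ (Subalgebra.mul_mem _ hs hu)
    (Subalgebra.one_mem _)
  exact h.T_le _ (le_Fr _ hs) (Fr_inv _ (le_Fr _ hs)) (le_Fr _ hz) (Fr_inv _ (le_Fr _ hz))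

/-- The divisorial valuation ring of the divisor `s = 0` of a chart. -/
theorem exists_divisor {s u : K} (h : IsChart s u) :
    ∃ (V : ValuationSubring K) (R : Subalgebra ℂ K), (∀ k, k ∈ V ↔ k ∈ R) ∧ s ∈ R ∧ s⁻¹ ∉ R ∧
      u ∈ R ∧ (s * u - 1)⁻¹ ∈ R ∧ ∀ ω ∈ canonicalModule R, ∃ c ∈ R, ω = c • W s u := by
  have hT := h.T_le_Fr
  have hreg := regular_B hT
  have hp := s_prime hT
  set σ : B s u := ⟨s, s_memB s u⟩ with hσ
  have hP : (Ideal.span {σ}).IsPrime := (Ideal.span_singleton_prime hp.ne_zero).2 hp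
  set R := locAt (B s u) (Ideal.span {σ}) with hR
  have hBR : B s u ≤ R := le_locAt _ _
  have hval : ∀ k : K, k ∈ R ∨ k⁻¹ ∈ R := by
    intro k
    obtain ⟨a, ha, b, hb, hb0, rfl⟩ := frac_of hT k
    by_cases ha0 : a = 0
    · left; rw [ha0, zero_div]; exact R.zero_mem
    obtain ⟨i, a', ha', hai⟩ := WfDvdMonoid.max_power_factor (a₀ := (⟨a, ha⟩ : B s u))
      (fun h => ha0 (congrArg Subtype.val h)) hp.irreducible
    obtain ⟨j, b', hb', hbj⟩ := WfDvdMonoid.max_power_factor (a₀ := (⟨b, hb⟩ : B s u))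
      (fun h => hb0 (congrArg Subtype.val h)) hp.irreducible
    have ea : a = s ^ i * a' := congrArg Subtype.val hai
    have eb : b = s ^ j * b' := congrArg Subtype.val hbj
    have hs0 := h.s_ne
    have ha'' : a' ∉ Ideal.span {σ} := by rwa [Ideal.mem_span_singleton]
    have hb'' : b' ∉ Ideal.span {σ} := by rwa [Ideal.mem_span_singleton]
    have ha0' : (a' : K) ≠ 0 := by rintro h; rw [h, mul_zero] at ea; exact ha0 ea
    have hb0' : (b' : K) ≠ 0 := by rintro h; rw [h, mul_zero] at eb; exact hb0 eb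
    rcases le_total j i with hij | hij
    · left
      have : a / b = s ^ (i - j) * a' * (b' : K)⁻¹ := by
        rw [ea, eb, ← Nat.sub_add_cancel hij, pow_add, Nat.add_sub_cancel]
        field_simp
      rw [this]
      exact R.mul_mem (R.mul_mem (R.pow_mem (hBR (s_memB s u)) _) (hBR a'.2)) (inv_mem_locAt hb'')
    · right
      have : (a / b)⁻¹ = s ^ (j - i) * b' * (a' : K)⁻¹ := by
        rw [ea, eb, ← Nat.sub_add_cancel hij, pow_add, Nat.add_sub_cancel, inv_div]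
        field_simp
      rw [this]
      exact R.mul_mem (R.mul_mem (R.pow_mem (hBR (s_memB s u)) _) (hBR b'.2)) (inv_mem_locAt ha'')
  refine ⟨{ R.toSubring with mem_or_inv_mem' := hval }, R, fun k => Iff.rfl, hBR (s_memB s u), ?_,
    hBR (u_memB s u), ?_, ?_⟩
  · intro hsi
    exact not_mem_of_inv_mem (a := σ) h.s_ne hsi (Ideal.mem_span_singleton_self σ)
  · have hz : s * u - 1 ∈ B s u := Subalgebra.sub_mem _
      (Subalgebra.mul_mem _ (s_memB s u) (u_memB s u)) (Subalgebra.one_mem _)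
    refine inv_mem_locAt (a := ⟨s * u - 1, hz⟩) ?_
    intro hmem
    apply hP.ne_top
    rw [Ideal.eq_top_iff_one]
    have : (1 : B s u) = σ * ⟨u, u_memB s u⟩ - ⟨s * u - 1, hz⟩ := by
      apply Subtype.ext
      push_cast
      ring
    rw [this]
    exact Ideal.sub_mem _ (Ideal.mul_mem_right _ _ (Ideal.mem_span_singleton_self σ)) hmem
  · intro ω hω
    refine canonical_le (d_mem_N ?_) hω
    rintro _ ⟨i, rfl⟩
    fin_cases i
    · exact mem_N.2 ⟨1, R.one_mem, 0, R.zero_mem, by simp⟩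
    · exact mem_N.2 ⟨0, R.zero_mem, 1, R.one_mem, by simp⟩

end Pool.Agent.K7.H1.LG
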