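import Pool.Agent.K7.H1.LG.Fibres

set_option autoImplicit false

namespace Pool.Agent.K7.H1.LG

variable {n : ℕ}

theorem prod_single {r : ℕ} (ρ : Fin r → Fin n → ℤ) (m : Fin r → ℕ) :
    ∏ i, (AddMonoidAlgebra.single (ρ i) 1 : Laurent n) ^ m i =
      AddMonoidAlgebra.single (∑ i, m i • ρ i) 1 := by
  simp [AddMonoidAlgebra.single_pow]

theorem period_eq {r : ℕ} (ρ : Fin r → Fin n → ℤ) (k : ℕ) :
    classicalPeriod (laurentOf ρ) k = toricQuantumPeriod ρ k := by
  unfold classicalPeriod laurentOf toricQuantumPeriod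
  rw [Finset.sum_pow_eq_sum_piAntidiag, AddMonoidAlgebra.coeff_sum, Finsupp.finsetSum_apply,
    Finset.sum_filter, Nat.cast_sum]
  refine Finset.sum_congr rfl fun m _ => ?_
  rw [prod_single, ← nsmul_eq_mul, AddMonoidAlgebra.coeff_smul, Finsupp.smul_apply,
    AddMonoidAlgebra.coeff_single, Finsupp.single_apply]
  split_ifs <;> simp

theorem polygonF1 : IsSmoothFanoPolygon raysF1 := by
  constructor
  · decide
  · decide

theorem hodge11_F1 : hodge11 raysF1 = 2 := by
  unfold hodge11
  have hinj : Function.Injective (Matrix.mulVecLin (Matrix.of raysF1)) := by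
    rw [← LinearMap.ker_eq_bot, LinearMap.ker_eq_bot']
    intro v hv
    have h0 := congrFun hv 0
    have h1 := congrFun hv 2
    simp [raysF1, Matrix.mulVec, dotProduct, Fin.sum_univ_two] at h0 h1
    funext i
    fin_cases i
    · exact h0
    · exact h1
  have h1 : Module.finrank ℤ (LinearMap.range (Matrix.mulVecLin (Matrix.of raysF1))) = 2 := by
    rw [LinearMap.finrank_range_of_inj hinj]
    simp
  have h2 := Submodule.finrank_quotient_add_finrank
    (LinearMap.range (Matrix.mulVecLin (Matrix.of raysF1)))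
  rw [h1] at h2
  simp at h2
  omega

theorem toFun_F1 : toFun (laurentOf raysF1) = f0 := by
  unfold toFun laurentOf
  rw [AddMonoidAlgebra.coeff_sum, ← Finsupp.sum_finsetSum_index]
  · simp only [AddMonoidAlgebra.coeff_single]
    rw [Fin.sum_univ_four]
    simp only [Finsupp.sum_single_index, zero_smul, one_smul, mono_eq, raysF1, f0]
    simp
  · intro m; exact zero_smul _ _
  · intro m a b; exact add_smul _ _ _

end Pool.Agent.K7.H1.LG
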