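import Pool.Agent.K7.H1.LG.Canon
import Pool.Agent.K7.H1.LG.Irred

set_option autoImplicit false

namespace Pool.Agent.K7.H1.LG

open MvPolynomial (X C)

/-- The ring of the two-dimensional torus. -/
noncomputable abbrev T : Subalgebra ℂ K := torusRing 2

theorem mono_eq (m : Fin 2 → ℤ) : mono m = x ^ m 0 * y ^ m 1 := Fin.prod_univ_two _

theorem mono_mem (m : Fin 2 → ℤ) : mono m ∈ T := Algebra.subset_adjoin ⟨m, rfl⟩

theorem x_mem : x ∈ T := by
  have := mono_mem ![1, 0]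
  rw [mono_eq] at this
  simpa using this

theorem xi_mem : x⁻¹ ∈ T := by
  have := mono_mem ![-1, 0]
  rw [mono_eq] at this
  simpa using this

theorem y_mem : y ∈ T := by
  have := mono_mem ![0, 1]
  rw [mono_eq] at this
  simpa using this

theorem yi_mem : y⁻¹ ∈ T := by
  have := mono_mem ![0, -1]
  rw [mono_eq] at this
  simpa using this

theorem zpow_mem_of {O : Subalgebra ℂ K} {a : K} (h : a ∈ O) (h' : a⁻¹ ∈ O) (k : ℤ) :
    a ^ k ∈ O := by
  rcases Int.eq_nat_or_neg k with ⟨m, rfl | rfl⟩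
  · rw [zpow_natCast]; exact O.pow_mem h m
  · rw [zpow_neg, zpow_natCast, ← inv_pow]; exact O.pow_mem h' m

theorem T_le {O : Subalgebra ℂ K} (hx : x ∈ O) (hxi : x⁻¹ ∈ O) (hy : y ∈ O) (hyi : y⁻¹ ∈ O) :
    T ≤ O := by
  refine Algebra.adjoin_le ?_
  rintro _ ⟨m, rfl⟩
  rw [mono_eq]
  exact O.mul_mem (zpow_mem_of hx hxi _) (zpow_mem_of hy hyi _)

/-- Elements of the torus ring times a power of `xy` are polynomials. -/
noncomputable def polySub : Subalgebra ℂ K where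
  carrier := {g | ∃ (n : ℕ) (P : Pol), g * (x * y) ^ n = algebraMap Pol K P}
  mul_mem' := by
    rintro a b ⟨m, P, hP⟩ ⟨n, Q, hQ⟩
    refine ⟨m + n, P * Q, ?_⟩
    rw [map_mul, ← hP, ← hQ]; ring
  add_mem' := by
    rintro a b ⟨m, P, hP⟩ ⟨n, Q, hQ⟩
    refine ⟨m + n, P * (X 0 * X 1) ^ n + Q * (X 0 * X 1) ^ m, ?_⟩
    rw [map_add, map_mul, map_mul, map_pow, map_pow, map_mul, ← hP, ← hQ, ← x_eq, ← y_eq]; ring
  algebraMap_mem' c := by
    refine ⟨0, MvPolynomial.C c, ?_⟩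
    rw [pow_zero, mul_one, ← MvPolynomial.algebraMap_eq, ← IsScalarTower.algebraMap_apply]

theorem exists_pol {g : K} (hg : g ∈ T) :
    ∃ (n : ℕ) (P : Pol), g * (x * y) ^ n = algebraMap Pol K P := by
  have h : T ≤ polySub := by
    refine T_le ⟨0, X 0, ?_⟩ ⟨1, X 1, ?_⟩ ⟨0, X 1, ?_⟩ ⟨1, X 0, ?_⟩
    · rw [pow_zero, mul_one, x_eq]
    · rw [pow_one, ← y_eq, ← mul_assoc, inv_mul_cancel₀ x_ne, one_mul]
    · rw [pow_zero, mul_one, y_eq]
    · rw [pow_one, ← x_eq, mul_comm x y, ← mul_assoc, inv_mul_cancel₀ y_ne, one_mul]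
  exact h hg

theorem pol_mem (P : Pol) : algebraMap Pol K P ∈ T := by
  induction P using MvPolynomial.induction_on with
  | C a =>
    rw [← MvPolynomial.algebraMap_eq, ← IsScalarTower.algebraMap_apply]
    exact T.algebraMap_mem a
  | add p q hp hq => rw [map_add]; exact T.add_mem hp hq
  | mul_X p i hp =>
    rw [map_mul]
    refine T.mul_mem hp ?_
    fin_cases i
    · exact x_mem
    · exact y_mem

theorem xy_ne : x * y ≠ 0 := mul_ne_zero x_ne y_ne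

/-- The units of the torus ring are the monomials. -/
theorem units_T {g : K} (hg : g ∈ T) (hgi : g⁻¹ ∈ T) (h0 : g ≠ 0) :
    ∃ (c : ℂ) (a b : ℤ), c ≠ 0 ∧ g = algebraMap ℂ K c * x ^ a * y ^ b := by
  obtain ⟨m, P, hP⟩ := exists_pol hg
  obtain ⟨n, Q, hQ⟩ := exists_pol hgi
  have hPQ : P * Q = X 0 ^ (m + n) * X 1 ^ (m + n) := by
    apply algMap_inj
    rw [map_mul, ← hP, ← hQ, map_mul, map_pow, map_pow, ← x_eq, ← y_eq]
    field_simp
    ring
  obtain ⟨P₁, P₂, h1, h2, rfl⟩ := exists_dvd_and_dvd_of_dvd_mul (Dvd.intro Q hPQ)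
  obtain ⟨i, -, hi⟩ := (dvd_prime_pow MvPolynomial.X_prime _).1 h1
  obtain ⟨j, -, hj⟩ := (dvd_prime_pow MvPolynomial.X_prime _).1 h2
  obtain ⟨u, hu⟩ := hi.symm
  obtain ⟨v, hv⟩ := hj.symm
  obtain ⟨c, hc, hc'⟩ := MvPolynomial.isUnit_iff_eq_C_of_isReduced.1 u.isUnit
  obtain ⟨e, he, he'⟩ := MvPolynomial.isUnit_iff_eq_C_of_isReduced.1 v.isUnit
  refine ⟨c * e, i - m, j - m, mul_ne_zero hc.ne_zero he.ne_zero, ?_⟩
  rw [← hu, ← hv, hc', he', map_mul, map_mul, map_mul, map_pow, map_pow, ← x_eq, ← y_eq,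
    ← MvPolynomial.algebraMap_eq, ← IsScalarTower.algebraMap_apply,
    ← IsScalarTower.algebraMap_apply] at hP
  have hpow : (x * y) ^ m ≠ 0 := pow_ne_zero _ xy_ne
  apply mul_right_cancel₀ hpow
  rw [hP, map_mul, zpow_sub₀ x_ne, zpow_sub₀ y_ne, zpow_natCast, zpow_natCast, zpow_natCast,
    zpow_natCast, mul_pow]
  have hxm : x ^ m ≠ 0 := pow_ne_zero _ x_ne
  have hym : y ^ m ≠ 0 := pow_ne_zero _ y_ne
  field_simp

theorem not_dvd_X (t : ℂ) (i : Fin 2) : ¬ Fp t ∣ (X i : Pol) := by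
  intro h
  have h1 := ((Fp_prime t).irreducible.dvd_irreducible_iff_associated
    (MvPolynomial.X_prime (i := i)).irreducible).1 h
  obtain ⟨q, hq⟩ := h1.symm.dvd
  have := congrArg (MvPolynomial.eval (0 : Fin 2 → ℂ)) hq
  unfold Fp at this
  simp at this

/-- `f - t` as a rational function. -/
noncomputable def F (t : ℂ) : K := x + x * y + y + x⁻¹ * y⁻¹ - algebraMap ℂ K t

theorem F_mul (t : ℂ) : F t * (x * y) = algebraMap Pol K (Fp t) := by
  unfold Fp F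
  rw [← MvPolynomial.algebraMap_eq]
  simp only [map_add, map_sub, map_mul, map_pow, map_one, ← x_eq, ← y_eq,
    ← IsScalarTower.algebraMap_apply]
  have := x_ne
  have := y_ne
  field_simp
  ring

theorem F_ne (t : ℂ) : F t ≠ 0 := by
  intro h
  have := F_mul t
  rw [h, zero_mul, eq_comm, map_eq_zero_iff _ algMap_inj] at this
  exact (Fp_prime t).ne_zero this

theorem F_mem (t : ℂ) : F t ∈ T :=
  T.sub_mem (T.add_mem (T.add_mem (T.add_mem x_mem (T.mul_mem x_mem y_mem)) y_mem)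
    (T.mul_mem xi_mem yi_mem)) (T.algebraMap_mem t)

theorem not_dvd_pow (t : ℂ) (n : ℕ) : ¬ Fp t ∣ ((X 0 * X 1) ^ n : Pol) := by
  intro h
  rcases (Fp_prime t).dvd_or_dvd ((Fp_prime t).dvd_of_dvd_pow h) with h | h
  · exact not_dvd_X t 0 h
  · exact not_dvd_X t 1 h

theorem dvd_of_dvd {t : ℂ} {a : K} {n : ℕ} {P : Pol} (hP : a * (x * y) ^ n = algebraMap Pol K P)
    (h : Fp t ∣ P) : ∃ b ∈ T, a = F t * b := by
  obtain ⟨R, rfl⟩ := h
  rw [map_mul, ← F_mul] at hP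
  refine ⟨algebraMap Pol K R * (x * y) * ((x⁻¹ * y⁻¹) ^ n), ?_, ?_⟩
  · exact T.mul_mem (T.mul_mem (pol_mem R) (T.mul_mem x_mem y_mem))
      (T.pow_mem (T.mul_mem xi_mem yi_mem) n)
  · have hpow : (x * y) ^ n ≠ 0 := pow_ne_zero _ xy_ne
    apply mul_right_cancel₀ hpow
    rw [hP]
    have : (x⁻¹ * y⁻¹) ^ n * (x * y) ^ n = 1 := by
      rw [← mul_pow]
      have := x_ne
      have := y_ne
      field_simp
      simp
    linear_combination (-F t * algebraMap Pol K R * (x * y)) * this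

theorem dvd_of_mem {t : ℂ} {a : K} {n : ℕ} {P : Pol} (hP : a * (x * y) ^ n = algebraMap Pol K P)
    {b : K} (hb : b ∈ T) (h : a = F t * b) : Fp t ∣ P := by
  obtain ⟨m, Q, hQ⟩ := exists_pol hb
  have h1 : P * (X 0 * X 1) ^ (m + 1) = Fp t * (Q * (X 0 * X 1) ^ n) := by
    apply algMap_inj
    simp only [map_mul, map_pow, ← hP, ← hQ, ← F_mul, ← x_eq, ← y_eq, h]
    ring
  rcases (Fp_prime t).dvd_or_dvd (Dvd.intro _ h1.symm) with h | h
  · exact h
  · exact absurd h (not_dvd_pow t _)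

theorem F_prime (t : ℂ) : Prime (⟨F t, F_mem t⟩ : T) := by
  refine ⟨?_, ?_, ?_⟩
  · intro h
    exact F_ne t (congrArg Subtype.val h)
  · intro hu
    obtain ⟨b, hb⟩ := hu.exists_right_inv
    have hb' : (1 : K) = F t * b := (congrArg Subtype.val hb).symm
    have := dvd_of_mem (t := t) (a := 1) (n := 0) (P := 1) (by simp) b.2 hb'
    exact (Fp_prime t).not_isUnit (isUnit_of_dvd_one this)
  · rintro a b ⟨c, hc⟩
    have hc' : (a : K) * b = F t * c := congrArg Subtype.val hc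
    obtain ⟨m, P, hP⟩ := exists_pol a.2
    obtain ⟨n, Q, hQ⟩ := exists_pol b.2
    have hPQ : ((a : K) * b) * (x * y) ^ (m + n) = algebraMap Pol K (P * Q) := by
      rw [map_mul, ← hP, ← hQ]; ring
    rcases (Fp_prime t).dvd_or_dvd (dvd_of_mem hPQ c.2 hc') with h | h
    · obtain ⟨e, he, he'⟩ := dvd_of_dvd hP h
      exact Or.inl ⟨⟨e, he⟩, Subtype.ext he'⟩
    · obtain ⟨e, he, he'⟩ := dvd_of_dvd hQ h
      exact Or.inr ⟨⟨e, he⟩, Subtype.ext he'⟩

end Pool.Agent.K7.H1.LG
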