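import Pool.Agent.K7.H1.LG.Exist
import Pool.Agent.K7.H1.LG.Comp

set_option autoImplicit false

namespace Pool.Agent.K7.H1.LG

theorem mem_of_forall_points {g : K} (h : ∀ O ∈ points T, g ∈ O) : g ∈ T := by
  let I : Ideal T :=
    { carrier := {a | (a : K) * g ∈ T}
      add_mem' := by
        intro a b ha hb
        change ((a : K) + b) * g ∈ T
        rw [add_mul]; exact T.add_mem ha hb
      zero_mem' := by change (0 : K) * g ∈ T; rw [zero_mul]; exact T.zero_mem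
      smul_mem' := by
        intro c a ha
        change ((c : K) * a) * g ∈ T
        rw [mul_assoc]; exact T.mul_mem c.2 ha }
  by_cases hI : I = ⊤
  · have : (1 : T) ∈ I := by rw [hI]; trivial
    have h1 : (1 : K) * g ∈ T := this
    rwa [one_mul] at h1
  · obtain ⟨P, hP, hIP⟩ := Ideal.exists_le_maximal I hI
    have := hP.isPrime
    obtain ⟨a, s, hs, hgs⟩ := h _ (locAt_mem_points T P)
    exfalso
    apply hs
    apply hIP
    change (s : K) * g ∈ T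
    rw [mul_comm, hgs]
    exact a.2

theorem zpow_nonneg_of {R : Subalgebra ℂ K} {s : K} (hs : s ∈ R) (hs0 : s ≠ 0) (hsi : s⁻¹ ∉ R)
    {k : ℤ} (h : s ^ k ∈ R) : 0 ≤ k := by
  by_contra hk
  push Not at hk
  apply hsi
  obtain ⟨m, hm⟩ := Int.eq_ofNat_of_zero_le (show 0 ≤ -k - 1 by omega)
  have : s⁻¹ = s ^ k * s ^ m := by
    rw [← zpow_natCast s m, ← zpow_add₀ hs0, ← zpow_neg_one]
    congr 1
    have : (m : ℤ) = -k - 1 := hm.symm
    omega
  rw [this]
  exact R.mul_mem h (R.pow_mem hs m)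

/-- The generator of the canonical module is a constant multiple of the invariant form. -/
theorem generator_const {f : Laurent 2} (hf : toFun f = f0) {Y : Set (Subalgebra ℂ K)}
    (hY : IsCYCompactification f Y) {ω : Form 2}
    (hω : ∀ O ∈ Y, canonicalModule O = Submodule.span O {ω}) :
    ∃ c : ℂ, c ≠ 0 ∧ ω = algebraMap ℂ K c • ωT := by
  -- the coefficient
  have key : ∀ O ∈ points T, ∃ g ∈ O, g⁻¹ ∈ O ∧ g ≠ 0 ∧ ω = g • ωT := by
    intro O hO
    have h1 := torus_canonical hO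
    rw [hω O (hY.torus hO)] at h1
    have h2 : ω ∈ Submodule.span O {ωT} := by
      rw [← h1]; exact Submodule.mem_span_singleton_self ω
    have h3 : ωT ∈ Submodule.span O {ω} := by
      rw [h1]; exact Submodule.mem_span_singleton_self ωT
    obtain ⟨⟨a, ha⟩, ha'⟩ := Submodule.mem_span_singleton.1 h2
    obtain ⟨⟨b, hb⟩, hb'⟩ := Submodule.mem_span_singleton.1 h3
    have e1 : ω = a • ωT := ha'.symm
    have e2 : ωT = b • ω := hb'.symm
    have e3 : (b * a) • ωT = (1 : K) • ωT :=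
      calc (b * a) • ωT = b • (a • ωT) := (smul_smul b a ωT).symm
        _ = b • ω := by rw [← e1]
        _ = ωT := e2.symm
        _ = (1 : K) • ωT := (one_smul K ωT).symm
    have e4 : b * a = 1 := smul_left_injective K ωT_ne e3
    have ha0 : a ≠ 0 := by rintro rfl; rw [mul_zero] at e4; exact zero_ne_one e4
    refine ⟨a, ha, ?_, ha0, e1⟩
    rw [← eq_inv_of_mul_eq_one_left e4]; exact hb
  obtain ⟨g, -, -, hg0, hg⟩ := key _ (locAt_mem_points T ⊥)
  have huniq : ∀ g' : K, ω = g' • ωT → g' = g := by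
    intro g' h
    rw [hg] at h
    exact (smul_left_injective K ωT_ne h).symm
  have hgT : g ∈ T := by
    refine mem_of_forall_points fun O hO => ?_
    obtain ⟨g', h1, h2, h3, h4⟩ := key O hO
    rw [← huniq g' h4]; exact h1
  have hgiT : g⁻¹ ∈ T := by
    refine mem_of_forall_points fun O hO => ?_
    obtain ⟨g', h1, h2, h3, h4⟩ := key O hO
    rw [← huniq g' h4]; exact h2
  -- regularity along the four divisors
  have hdiv : ∀ s u, IsStd s u → ∃ R : Subalgebra ℂ K, s ∈ R ∧ s⁻¹ ∉ R ∧ s * u - 1 ∈ R ∧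
      (s * u - 1)⁻¹ ∈ R ∧ g ∈ R := by
    intro s u hsu
    have hc := hsu.isChart
    obtain ⟨V, R, hVR, h1, h2, h3, h4, h5⟩ := exists_divisor hc
    have hz : s * u - 1 ∈ R := R.sub_mem (R.mul_mem h1 h3) R.one_mem
    have hAR : A s u ≤ R := A_le h1 h3 h4
    obtain ⟨O, hO, hd⟩ := hY.proper V (fun c => (hVR _).2 (R.algebraMap_mem c))
      (by rw [hf]; exact (hVR _).2 (hAR hc.f0_mem))
    have hOR : O ≤ R := fun k hk => (hVR k).1 (hd.1 k hk)
    have hωR : ω ∈ canonicalModule R := by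
      apply canonical_mono hOR
      rw [hω O hO]; exact Submodule.mem_span_singleton_self ω
    obtain ⟨c, hcR, e⟩ := h5 ω hωR
    refine ⟨R, h1, h2, hz, h4, ?_⟩
    rcases hc.form with hf | hf
    · rw [← huniq (c * (s * u - 1)) (by rw [e, hf, smul_smul])]
      exact R.mul_mem hcR hz
    · rw [← huniq (-(c * (s * u - 1))) (by
        rw [e, hf, smul_neg, smul_smul]; exact (neg_smul _ _).symm)]
      exact R.neg_mem (R.mul_mem hcR hz)
  obtain ⟨c, a, b, hc, rfl⟩ := units_T hgT hgiT hg0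
  have hx := x_ne
  have hy := y_ne
  have hcK : algebraMap ℂ K c ≠ 0 := by
    rw [Ne, map_eq_zero_iff _ (algebraMap ℂ K).injective]; exact hc
  have hrem : ∀ R : Subalgebra ℂ K, algebraMap ℂ K c * x ^ a * y ^ b ∈ R → x ^ a * y ^ b ∈ R := by
    intro R h
    have : x ^ a * y ^ b = algebraMap ℂ K c⁻¹ * (algebraMap ℂ K c * x ^ a * y ^ b) := by
      rw [← mul_assoc, ← mul_assoc, ← map_mul, inv_mul_cancel₀ hc, map_one, one_mul]
    rw [this]
    exact R.mul_mem (R.algebraMap_mem _) h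
  have hz1 : x⁻¹ * (x + x * y) - 1 = y := by field_simp; ring
  have hz2 : y⁻¹ * (y + x * y) - 1 = x := by field_simp; ring
  have hz3 : x⁻¹ * (x + x⁻¹ * y⁻¹) - 1 = x⁻¹ * x⁻¹ * y⁻¹ := by field_simp; ring
  have hz4 : y⁻¹ * (y + x⁻¹ * y⁻¹) - 1 = x⁻¹ * y⁻¹ * y⁻¹ := by field_simp; ring
  have I1 : 0 ≤ -a := by
    obtain ⟨R, h1, h2, h3, h4, h5⟩ := hdiv _ _ (Or.inl ⟨rfl, rfl⟩)
    rw [hz1] at h3 h4
    refine zpow_nonneg_of h1 (inv_ne_zero hx) h2 ?_
    have : x⁻¹ ^ (-a) = (x ^ a * y ^ b) * y ^ (-b) := by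
      rw [inv_zpow, zpow_neg, inv_inv, mul_assoc, ← zpow_add₀ hy]; simp
    rw [this]
    exact R.mul_mem (hrem R h5) (zpow_mem_of h3 h4 _)
  have I2 : 0 ≤ -b := by
    obtain ⟨R, h1, h2, h3, h4, h5⟩ := hdiv _ _ (Or.inr (Or.inl ⟨rfl, rfl⟩))
    rw [hz2] at h3 h4
    refine zpow_nonneg_of h1 (inv_ne_zero hy) h2 ?_
    have : y⁻¹ ^ (-b) = x ^ (-a) * (x ^ a * y ^ b) := by
      rw [inv_zpow, zpow_neg, inv_inv, ← mul_assoc, ← zpow_add₀ hx]; simp
    rw [this]
    exact R.mul_mem (zpow_mem_of h3 h4 _) (hrem R h5)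
  have I3 : 0 ≤ 2 * b - a := by
    obtain ⟨R, h1, h2, h3, h4, h5⟩ := hdiv _ _ (Or.inr (Or.inr (Or.inl ⟨rfl, rfl⟩)))
    rw [hz3] at h3 h4
    refine zpow_nonneg_of h1 (inv_ne_zero hx) h2 ?_
    have : x⁻¹ ^ (2 * b - a) = (x ^ a * y ^ b) * (x⁻¹ * x⁻¹ * y⁻¹) ^ b := by
      rw [mul_zpow, mul_zpow, inv_zpow, inv_zpow, inv_zpow, ← zpow_neg, ← zpow_neg, ← zpow_neg]
      have e1 : x ^ a * y ^ b * (x ^ (-b) * x ^ (-b) * y ^ (-b)) =
        (x ^ a * (x ^ (-b) * x ^ (-b))) * (y ^ b * y ^ (-b)) := by ring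
      rw [e1, ← zpow_add₀ hx, ← zpow_add₀ hx, ← zpow_add₀ hy, add_neg_cancel, zpow_zero, mul_one]
      congr 1
      ring
    rw [this]
    exact R.mul_mem (hrem R h5) (zpow_mem_of h3 h4 _)
  have I4 : 0 ≤ 2 * a - b := by
    obtain ⟨R, h1, h2, h3, h4, h5⟩ := hdiv _ _ (Or.inr (Or.inr (Or.inr ⟨rfl, rfl⟩)))
    rw [hz4] at h3 h4
    refine zpow_nonneg_of h1 (inv_ne_zero hy) h2 ?_
    have : y⁻¹ ^ (2 * a - b) = (x ^ a * y ^ b) * (x⁻¹ * y⁻¹ * y⁻¹) ^ a := by
      rw [mul_zpow, mul_zpow, inv_zpow, inv_zpow, inv_zpow, ← zpow_neg, ← zpow_neg, ← zpow_neg]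
      have e1 : x ^ a * y ^ b * (x ^ (-a) * y ^ (-a) * y ^ (-a)) =
        (x ^ a * x ^ (-a)) * (y ^ b * (y ^ (-a) * y ^ (-a))) := by ring
      rw [e1, ← zpow_add₀ hx, ← zpow_add₀ hy, ← zpow_add₀ hy, add_neg_cancel, zpow_zero, one_mul]
      congr 1
      ring
    rw [this]
    exact R.mul_mem (hrem R h5) (zpow_mem_of h3 h4 _)
  have ha : a = 0 := by omega
  have hb : b = 0 := by omega
  subst ha hb
  refine ⟨c, hc, ?_⟩
  rw [hg]
  simp

end Pool.Agent.K7.H1.LG
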